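import Pool.Agent.H17.CF.C.Defs
import Pool.Agent.H7.IG.Tk4
import Pool.Agent.H7.IG.Tk5
import Pool.Agent.H7.IG.Tk8

/-!
# CF-C5: absoluteness between `M` and an extension without new `κ`-sequences

`NK M M₁ κ`: `M ⊆ M₁` are ctms with the same functions from `κ` into elements of `M`.
`NK.sbs`: let `f ∈ M` cover `A` by `κ`. `Z = {ξ ∈ κ : ∃ x ∈ Y, (ξ, x) ∈ f} ∈ M₁` (separation in `M₁`). Its characteristic function `χ : κ → 2`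
is in `M₁` (`Fn χ κ {0, 1}`), so in `M`; so `Z = {ξ : (ξ, 1) ∈ χ} ∈ M`, and `Y = {x ∈ A : ∃ ξ ∈ Z, (ξ, x) ∈ f} ∈ M` (`f` is
single valued on `κ`, so `(ξ, x) ∈ f`, `(ξ, x') ∈ f`, `x' ∈ Y` gives `x = x'`).
`NK.cvr`: let `f ∈ M₁` cover `A` by `α ≤ κ`. If `A = ∅` clear. Let `a ∈ A`. The total function `f' : κ → A`, `f'(ξ) = f(ξ)` if `ξ ∈ α` and there is `x ∈ A`
with `(ξ, x) ∈ f`, and `a` otherwise, is in `M₁` (separation from `κ × A`), so in `M`; restricted to `α` it covers `A`.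
`NK.ctb`: `Ctb` and `Cvr _ omZ` are equivalent (`ctb_iff_cvr` or similar in Tk4/Tk5; `omZ = ω.toZFSet`), `ω ≤ κ`.
`NK.cv`: `hM₁`; the negative facts by `NK.cvr`, `NK.ctb`, the positive ones go up.
`NK.cc`: → Let `Z ∈ M₁`, `Z ⊆ P`; `Z ∈ M` by `sbs`. ← Let `Z ∈ M`; the `C ∈ M₁`, `C ⊆ Z ⊆ P` is in `M` by `sbs`, and `Ctb M C` by `ctb`.
-/

set_option autoImplicit false
set_option linter.unusedVariables false
set_option linter.unusedSectionVars false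
set_option linter.unusedSimpArgs false
set_option linter.unusedTactic false
set_option linter.unreachableTactic false

open Pool.Agent.H17.Omega Pool.Agent.H17.Omega.CTM Pool.Agent.H52.GC Pool.Agent.H7.IG

namespace Pool.Agent.H17.CF

/-- `M ⊆ M₁` are ctms with the same functions from `κ` into elements of `M`. -/
structure NK (M M₁ : Set ZFSet.{0}) (κ : Ordinal.{0}) : Prop where
  hM : CTM M
  hM₁ : CTM M₁
  sub : M ⊆ M₁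
  hκN : κ.toZFSet ∈ M
  hκω : Ordinal.omega0 ≤ κ
  fn : ∀ f ∈ M₁, ∀ A ∈ M, Fn f κ.toZFSet A → f ∈ M
  ord : ∀ o : Ordinal.{0}, o.toZFSet ∈ M₁ ↔ o.toZFSet ∈ M

theorem abs_omZ : omZ.{0} = Ordinal.omega0.{0}.toZFSet := by
  ext x
  rw [mem_omZ, Ordinal.mem_toZFSet_iff]
  constructor
  · rintro ⟨n, rfl⟩
    exact ⟨(n : Ordinal.{0}), Ordinal.natCast_lt_omega0 n, (natZ_eq n).symm⟩
  · rintro ⟨a, ha, rfl⟩
    obtain ⟨n, rfl⟩ := Ordinal.lt_omega0.1 ha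
    exact ⟨n, (natZ_eq n).symm⟩

theorem abs_sub {α β : Ordinal.{0}} (hαβ : α ≤ β) : α.toZFSet ⊆ β.toZFSet := by
  intro x hx
  obtain ⟨ξ, hξ, rfl⟩ := Ordinal.mem_toZFSet_iff.1 hx
  exact Ordinal.toZFSet_mem_toZFSet_iff.2 (hξ.trans_le hαβ)

theorem abs_sdiff {N : Set ZFSet.{0}} (hN : CTM N) {x y : ZFSet.{0}} (hx : x ∈ N) (hy : y ∈ N) : x \ y ∈ N :=
  (PD.sdiff (hN := hN) (n := 0) (PD.const hx) (PD.const hy)).1 Fin.elim0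

variable {M M₁ : Set ZFSet.{0}} {κ : Ordinal.{0}} (h : NK M M₁ κ)

include h

theorem NK.sbs {A Y : ZFSet.{0}} (hA : A ∈ M) (hc : Cvr M κ.toZFSet A) (hY : Y ∈ M₁) (hs : Y ⊆ A) : Y ∈ M := by
  obtain ⟨f, hf, hf1, hf2⟩ := hc
  have hκ₁ := h.sub h.hκN
  have hf₁ := h.sub hf
  obtain ⟨Z, hZ, hZ'⟩ : ∃ Z ∈ M₁, ∀ ξ, ξ ∈ Z ↔ ξ ∈ κ.toZFSet ∧ ∃ x ∈ Y, ZFSet.pair ξ x ∈ f := by
    refine ⟨_, (PD.sep (hN := h.hM₁) (n := 0) (P := fun v ξ => ∃ x ∈ Y, ZFSet.pair ξ x ∈ f)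
      (PD.const hκ₁) (Df.bex (P := fun v x => ZFSet.pair (v 0).1 x ∈ f) (PD.const hY)
        (Df.mem (PD.pair (PD.var 0) (PD.var 1)) (PD.const hf₁)))).1 Fin.elim0, fun ξ => ZFSet.mem_sep⟩
  have h0 : (∅ : ZFSet.{0}) ∈ M := h.hM.empty_mem
  have h1 : ({∅} : ZFSet.{0}) ∈ M := h.hM.singleton_mem h0
  have hne : ({∅} : ZFSet.{0}) ≠ ∅ := by
    intro e
    have : (∅ : ZFSet.{0}) ∈ ({∅} : ZFSet.{0}) := ZFSet.mem_singleton.2 rfl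
    rw [e] at this
    exact ZFSet.notMem_empty _ this
  set χ : ZFSet.{0} := ZFSet.prod Z {({∅} : ZFSet.{0})} ∪ ZFSet.prod (κ.toZFSet \ Z) {∅} with hχd
  have hχ₁ : χ ∈ M₁ := h.hM₁.union_mem
    (h.hM₁.prod_mem hZ (h.hM₁.singleton_mem (h.sub h1)))
    (h.hM₁.prod_mem (abs_sdiff h.hM₁ hκ₁ hZ) (h.hM₁.singleton_mem (h.sub h0)))
  have hχm : ∀ ξ y, ZFSet.pair ξ y ∈ χ ↔ (ξ ∈ Z ∧ y = {∅}) ∨ ((ξ ∈ κ.toZFSet ∧ ξ ∉ Z) ∧ y = ∅) := by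
    intro ξ y
    rw [hχd, ZFSet.mem_union, ZFSet.pair_mem_prod, ZFSet.pair_mem_prod, ZFSet.mem_singleton,
      ZFSet.mem_singleton, ZFSet.mem_sdiff]
  have hχF : Fn χ κ.toZFSet {({∅} : ZFSet.{0}), ∅} := by
    refine ⟨fun z hz => ?_, fun ξ hξ => ?_, fun ξ _ y _ y' _ h2 h3 => ?_⟩
    · rw [hχd, ZFSet.mem_union, ZFSet.mem_prod, ZFSet.mem_prod] at hz
      rcases hz with ⟨ξ, hξ, y, hy, rfl⟩ | ⟨ξ, hξ, y, hy, rfl⟩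
      · rw [ZFSet.mem_singleton] at hy
        exact ⟨ξ, ((hZ' ξ).1 hξ).1, y, by rw [hy]; simp, rfl⟩
      · rw [ZFSet.mem_singleton] at hy
        rw [ZFSet.mem_sdiff] at hξ
        exact ⟨ξ, hξ.1, y, by rw [hy]; simp, rfl⟩
    · by_cases h2 : ξ ∈ Z
      · exact ⟨{∅}, by simp, (hχm _ _).2 (Or.inl ⟨h2, rfl⟩)⟩
      · exact ⟨∅, by simp, (hχm _ _).2 (Or.inr ⟨⟨hξ, h2⟩, rfl⟩)⟩
    · rw [hχm] at h2 h3
      rcases h2 with ⟨h2, rfl⟩ | ⟨h2, rfl⟩ <;> rcases h3 with ⟨h3, rfl⟩ | ⟨h3, rfl⟩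
      · rfl
      · exact absurd h2 h3.2
      · exact absurd h3 h2.2
      · rfl
  have hχ : χ ∈ M := h.fn χ hχ₁ _ (h.hM.upair_mem h1 h0) hχF
  have hYe : Y = ZFSet.sep (fun x => ∃ ξ ∈ κ.toZFSet, ZFSet.pair ξ {∅} ∈ χ ∧ ZFSet.pair ξ x ∈ f) A := by
    ext x
    rw [ZFSet.mem_sep]
    constructor
    · intro hx
      obtain ⟨ξ, hξ, h2⟩ := hf2 x (hs hx)
      exact ⟨hs hx, ξ, hξ, (hχm _ _).2 (Or.inl ⟨(hZ' ξ).2 ⟨hξ, x, hx, h2⟩, rfl⟩), h2⟩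
    · rintro ⟨hx, ξ, hξ, h2, h3⟩
      rw [hχm] at h2
      rcases h2 with ⟨h2, -⟩ | ⟨-, h2⟩
      · obtain ⟨-, x', hx', h4⟩ := (hZ' ξ).1 h2
        rw [hf1 ξ hξ x x' h3 h4]
        exact hx'
      · exact absurd h2 hne
  rw [hYe]
  exact (PD.sep (hN := h.hM) (n := 0)
    (P := fun v x => ∃ ξ ∈ κ.toZFSet, ZFSet.pair ξ {∅} ∈ χ ∧ ZFSet.pair ξ x ∈ f) (PD.const hA)
    (Df.bex (P := fun v ξ => ZFSet.pair ξ {∅} ∈ χ ∧ ZFSet.pair ξ (v 0).1 ∈ f) (PD.const h.hκN)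
      (Dfn.and (Df.mem (PD.pair (PD.var 1) (PD.const h1)) (PD.const hχ))
        (Df.mem (PD.pair (PD.var 1) (PD.var 0)) (PD.const hf))))).1 Fin.elim0

theorem NK.cvr {α : Ordinal.{0}} (hα : α ≤ κ) {A : ZFSet.{0}} (hA : A ∈ M) (hc : Cvr M₁ α.toZFSet A) :
    Cvr M α.toZFSet A := by
  by_cases hne : ∃ x, x ∈ A
  · have hα₁ : α.toZFSet ∈ M₁ := h.sub (h.hM.toZFSet_mem_of_le hα h.hκN)
    obtain ⟨f, hf, hfn, hfo⟩ := cvr_onto h.hM₁ hα₁ (h.sub hA) hc hne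
    obtain ⟨a, ha⟩ := hne
    have haN := h.hM.mem_of_mem hA ha
    set g : ZFSet.{0} := f ∪ ZFSet.prod (κ.toZFSet \ α.toZFSet) {a} with hg
    have hg₁ : g ∈ M₁ := h.hM₁.union_mem hf (h.hM₁.prod_mem (abs_sdiff h.hM₁ (h.sub h.hκN) hα₁)
      (h.hM₁.singleton_mem (h.sub haN)))
    have hgm : ∀ ξ y, ZFSet.pair ξ y ∈ g ↔ ZFSet.pair ξ y ∈ f ∨ ((ξ ∈ κ.toZFSet ∧ ξ ∉ α.toZFSet) ∧ y = a) := by
      intro ξ y
      rw [hg, ZFSet.mem_union, ZFSet.pair_mem_prod, ZFSet.mem_singleton, ZFSet.mem_sdiff]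
    have hfd : ∀ ξ y, ZFSet.pair ξ y ∈ f → ξ ∈ α.toZFSet ∧ y ∈ A := by
      intro ξ y h1
      obtain ⟨x, hx, y', hy', h2⟩ := hfn.sub _ h1
      rw [ZFSet.pair_inj] at h2
      rw [h2.1, h2.2]
      exact ⟨hx, hy'⟩
    have hgF : Fn g κ.toZFSet A := by
      refine ⟨fun z hz => ?_, fun ξ hξ => ?_, fun ξ _ y _ y' _ h2 h3 => ?_⟩
      · rw [hg, ZFSet.mem_union, ZFSet.mem_prod] at hz
        rcases hz with hz | ⟨ξ, hξ, y, hy, rfl⟩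
        · obtain ⟨x, hx, y, hy, rfl⟩ := hfn.sub _ hz
          exact ⟨x, abs_sub hα hx, y, hy, rfl⟩
        · rw [ZFSet.mem_singleton] at hy
          rw [ZFSet.mem_sdiff] at hξ
          exact ⟨ξ, hξ.1, y, by rw [hy]; exact ha, rfl⟩
      · by_cases h2 : ξ ∈ α.toZFSet
        · obtain ⟨y, hy, h3⟩ := hfn.tot ξ h2
          exact ⟨y, hy, (hgm _ _).2 (Or.inl h3)⟩
        · exact ⟨a, ha, (hgm _ _).2 (Or.inr ⟨⟨hξ, h2⟩, rfl⟩)⟩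
      · rw [hgm] at h2 h3
        rcases h2 with h2 | ⟨h2, rfl⟩ <;> rcases h3 with h3 | ⟨h3, rfl⟩
        · exact hfn.uni ξ (hfd _ _ h2).1 y (hfd _ _ h2).2 y' (hfd _ _ h3).2 h2 h3
        · exact absurd (hfd _ _ h2).1 h3.2
        · exact absurd (hfd _ _ h3).1 h2.2
        · rfl
    have hgM : g ∈ M := h.fn g hg₁ A hA hgF
    refine ⟨g, hgM, fun y hy x x' h2 h3 => ?_, fun x hx => ?_⟩
    · have hy' := abs_sub hα hy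
      have hd : ∀ x, ZFSet.pair y x ∈ g → x ∈ A := by
        intro x hx
        obtain ⟨u, hu, w, hw, h4⟩ := hgF.sub _ hx
        rw [ZFSet.pair_inj] at h4
        rw [h4.2]
        exact hw
      exact hgF.uni y hy' x (hd x h2) x' (hd x' h3) h2 h3
    · obtain ⟨y, hy, h2⟩ := hfo x hx
      exact ⟨y, hy, (hgm _ _).2 (Or.inl h2)⟩
  · exact ⟨∅, h.hM.empty_mem, fun y _ x x' h2 => absurd h2 (ZFSet.notMem_empty _),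
      fun x hx => absurd ⟨x, hx⟩ hne⟩

theorem NK.ctb {A : ZFSet.{0}} (hA : A ∈ M) (hc : Ctb M₁ A) : Ctb M A := by
  rw [ctb_iff_cvr' h.hM₁, abs_omZ] at hc
  rw [ctb_iff_cvr' h.hM, abs_omZ]
  exact h.cvr h.hκω hA hc

theorem abs_up {Y X : ZFSet.{0}} (hc : Cvr M Y X) : Cvr M₁ Y X := by
  obtain ⟨f, hf, h1, h2⟩ := hc
  exact ⟨f, h.sub hf, h1, h2⟩

theorem abs_ctb_up {X : ZFSet.{0}} (hc : Ctb M X) : Ctb M₁ X := by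
  obtain ⟨f, hf, h1⟩ := hc
  exact ⟨f, h.sub hf, h1⟩

theorem NK.cv {Ω lam : Ordinal.{0}} (hc : Cv M κ Ω lam) : Cv M₁ κ Ω lam where
  hM := h.hM₁
  hκN := h.sub hc.hκN
  hκω := hc.hκω
  hκ := fun α hα h1 => hc.hκ α hα (h.cvr hα.le hc.hκN h1)
  hΩ := ⟨h.sub hc.hΩ.mem, fun h1 => hc.hΩ.unc (h.ctb hc.hΩ.mem h1),
    fun α hα => abs_ctb_up h (hc.hΩ.ctb α hα)⟩
  hΩκ := hc.hΩκ
  hlamN := h.sub hc.hlamN
  hlamκ := hc.hlamκ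
  hlam := fun h1 => hc.hlam (h.cvr le_rfl hc.hlamN h1)
  hcov := fun α hα => abs_up h (hc.hcov α hα)

theorem NK.cc {P R : ZFSet.{0}} (hP : P ∈ M) (hR : R ∈ M) (hc : Cvr M κ.toZFSet P) : CC M P R ↔ CC M₁ P R := by
  constructor
  · intro h1 Z hZ hZP
    obtain ⟨C, hC, hCZ, hCc, h2⟩ := h1 Z (h.sbs hP hc hZ hZP) hZP
    exact ⟨C, h.sub hC, hCZ, abs_ctb_up h hCc, h2⟩
  · intro h1 Z hZ hZP
    obtain ⟨C, hC, hCZ, hCc, h2⟩ := h1 Z (h.sub hZ) hZP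
    have hCM : C ∈ M := h.sbs hP hc hC fun x hx => hZP (hCZ hx)
    exact ⟨C, hCM, hCZ, h.ctb hCM hCc, h2⟩

end Pool.Agent.H17.CF
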