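import Pool.Agent.H17.CF.C.Defs
import Pool.Agent.H17.CF.A.Card

/-!
# CF-C1: the base `κ · ω`

`om_cvr`. Let `p : M` be `∈`-recursion along the relation `R y x` iff `x = (n, ξ)`, `y = (m, η)`, `n, m ∈ ω`, `ξ, η ∈ κ` and
(`m ∈ n` or (`m = n` and `η ∈ ξ`)) (definable, set-like, well-founded: `Prod.Lex`, `InvImage.wf` by the map of a pair to
(natural number, ordinal); for the use see `exists_rec` in H7/IG/Tk2.lean, `CTM.recursion` in H17/Omega/CtmR.lean): let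
`F x = {F y : R y x}`, i.e. `𝒢 x r v` iff for all `z`: `z ∈ v ↔ ∃ y, r y z`. By induction (lexicographic) `F (n, ξ) = (κ n + ξ).toZFSet`:
the elements of the right side are the ordinals `< κ n + ξ`, which are the `κ m + η` with `(m, η) < (n, ξ)`
(`Ordinal.div_add_mod`: `ζ = κ (ζ / κ) + ζ % κ`). The image of `ω × κ` under `F` is a set of `M` (replacement;
`hM.exists_image` or similar, see Tk1) and equals `(κ ω).toZFSet` (`ζ < κ ω` iff `ζ / κ < ω`, `Ordinal.div_lt`, `lt_omega0`). `F` restricted to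
`ω × κ` shows that `κ ω` is covered by `ω × κ` (`cvr_of_dfn`, Tk4), and `ω × κ` is covered by `κ` (`cvr_prod2`), so
`Cvr.trans` (Tk4).

`om_lt`: otherwise `lam ≤ κ ω`, so `lam.toZFSet ⊆ (κ ω).toZFSet` and `Cvr.mono` contradicts `hlam`.

Status: complete (helper26).
-/

set_option autoImplicit false
set_option linter.unusedVariables false
set_option linter.unusedSectionVars false
set_option linter.unusedSimpArgs false
set_option linter.unusedTactic false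
set_option linter.unreachableTactic false

open Pool.Agent.H17.Omega Pool.Agent.H17.Omega.CTM Pool.Agent.H52.GC Pool.Agent.H7.IG

namespace Pool.Agent.H17.CF

theorem om_lex1 {κ m m' η η' : Ordinal.{0}} (h : η < κ) (h1 : m < m') : κ * m + η < κ * m' + η' := by
  calc κ * m + η < κ * m + κ := (add_lt_add_iff_left _).2 h
    _ = κ * (m + 1) := by rw [mul_add, mul_one]
    _ ≤ κ * m' := mul_le_mul_right (Order.add_one_le_of_lt h1) _
    _ ≤ κ * m' + η' := le_self_add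

theorem om_lex {κ m m' η η' : Ordinal.{0}} (h : η < κ) (h' : η' < κ) :
    κ * m + η < κ * m' + η' ↔ m < m' ∨ m = m' ∧ η < η' := by
  constructor
  · intro hlt
    rcases lt_trichotomy m m' with h1 | h1 | h1
    · exact Or.inl h1
    · subst h1
      exact Or.inr ⟨rfl, (add_lt_add_iff_left _).1 hlt⟩
    · exact absurd hlt (om_lex1 h' h1).asymm
  · rintro (h1 | ⟨rfl, h1⟩)
    · exact om_lex1 h h1
    · exact (add_lt_add_iff_left _).2 h1

theorem om_inj {a b : Ordinal.{0}} (h : a.toZFSet = b.toZFSet) : a = b := Ordinal.toZFSet_injective h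

theorem om_cvr {M : Set ZFSet.{0}} (hM : CTM M) {κ : Ordinal.{0}} (hκN : κ.toZFSet ∈ M) (hκω : Ordinal.omega0 ≤ κ) :
    Bs κ ∈ M ∧ Cvr M κ.toZFSet (Bs κ) := by
  have hωN : (omZ : ZFSet.{0}) ∈ M := hM.omZ_mem
  have hκ0 : 0 < κ := Ordinal.omega0_pos.trans_le hκω
  have hWN : ZFSet.prod omZ κ.toZFSet ∈ M := hM.prod_mem hωN hκN
  obtain ⟨oN, hoN⟩ : ∃ z : M, z.1 = omZ := ⟨⟨_, hωN⟩, rfl⟩
  obtain ⟨kN, hkN⟩ : ∃ z : M, z.1 = κ.toZFSet := ⟨⟨_, hκN⟩, rfl⟩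
  have hW : ∀ x : ZFSet.{0}, x ∈ ZFSet.prod omZ κ.toZFSet ↔
      ∃ m η : Ordinal.{0}, m < Ordinal.omega0 ∧ η < κ ∧ x = ZFSet.pair m.toZFSet η.toZFSet := by
    intro x
    rw [ZFSet.mem_prod]
    constructor
    · rintro ⟨a, ha, b, hb, rfl⟩
      rw [card_omZ] at ha
      obtain ⟨m, hm, rfl⟩ := Ordinal.mem_toZFSet_iff.1 ha
      obtain ⟨η, hη, rfl⟩ := Ordinal.mem_toZFSet_iff.1 hb
      exact ⟨m, η, hm, hη, rfl⟩
    · rintro ⟨m, η, hm, hη, rfl⟩
      refine ⟨_, ?_, _, Ordinal.toZFSet_mem_toZFSet_iff.2 hη, rfl⟩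
      rw [card_omZ]
      exact Ordinal.toZFSet_mem_toZFSet_iff.2 hm
  have hval : ∀ x : ZFSet.{0}, ∃ a : Ordinal.{0}, ∀ m η : Ordinal.{0}, m < Ordinal.omega0 → η < κ →
      x = ZFSet.pair m.toZFSet η.toZFSet → a = κ * m + η := by
    intro x
    by_cases hx : ∃ m η : Ordinal.{0}, m < Ordinal.omega0 ∧ η < κ ∧ x = ZFSet.pair m.toZFSet η.toZFSet
    · obtain ⟨m, η, _, _, h1⟩ := hx
      refine ⟨κ * m + η, fun m' η' _ _ h2 => ?_⟩
      rw [h1, ZFSet.pair_inj] at h2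
      rw [om_inj h2.1, om_inj h2.2]
    · exact ⟨0, fun m η hm hη h1 => absurd ⟨m, η, hm, hη, h1⟩ hx⟩
  choose val hval using hval
  -- the relation
  obtain ⟨RR, hRR, hRR'⟩ := hM.exists_sep (P := fun z => ∃ y x m η n ξ : M, z.1 = ZFSet.pair y.1 x.1 ∧
      y.1 = ZFSet.pair m.1 η.1 ∧ x.1 = ZFSet.pair n.1 ξ.1 ∧ (m.1 ∈ n.1 ∨ (m.1 = n.1 ∧ η.1 ∈ ξ.1))) (by
    (repeat' first
      | exact DT.var _ | exact DT.last | exact DT.const _ | assumption
      | refine Dfn.pairMem ?_ ?_ ?_ | refine Dfn.isPair ?_ ?_ ?_ | refine Dfn.mem ?_ ?_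
      | refine Dfn.eqv ?_ ?_ | refine Dfn.eq ?_ ?_ | refine Dfn.subset ?_ ?_
      | refine Dfn.isEmpty ?_ | refine Dfn.isTrans ?_ | refine Dfn.isOrd ?_ | refine Dfn.isNat ?_
      | refine Dfn.isUpair ?_ ?_ ?_ | refine Dfn.isInsert ?_ ?_ ?_
      | refine Dfn.and ?_ ?_ | refine Dfn.or ?_ ?_ | refine Dfn.iff ?_ ?_ | refine Dfn.not ?_
      | refine Dfn.imp ?_ ?_ | refine Dfn.all ?_ | refine Dfn.ex ?_ | exact Dfn.false'
      | refine Dfn.ballZ ?_ ?_ | refine Dfn.bexZ ?_ ?_ | exact Dfn.const _)) (hM.prod_mem hWN hWN)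
  have hR : ∀ y x : ZFSet.{0}, ZFSet.pair y x ∈ RR ↔
      y ∈ ZFSet.prod omZ κ.toZFSet ∧ x ∈ ZFSet.prod omZ κ.toZFSet ∧ val y < val x := by
    intro y x
    rw [hRR', ZFSet.pair_mem_prod]
    constructor
    · rintro ⟨⟨hy, hx⟩, _, y', x', m', η', n', ξ', h1, h2, h3, h4⟩
      refine ⟨hy, hx, ?_⟩
      obtain ⟨m, η, hm, hη, rfl⟩ := (hW y).1 hy
      obtain ⟨n, ξ, hn, hξ, rfl⟩ := (hW x).1 hx
      rw [hval _ m η hm hη rfl, hval _ n ξ hn hξ rfl, om_lex hη hξ]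
      rw [ZFSet.pair_inj] at h1
      rw [← h1.1, ZFSet.pair_inj] at h2
      rw [← h1.2, ZFSet.pair_inj] at h3
      rw [← h2.1, ← h2.2, ← h3.1, ← h3.2, Ordinal.toZFSet_mem_toZFSet_iff, Ordinal.toZFSet_mem_toZFSet_iff] at h4
      rcases h4 with h4 | ⟨h4, h5⟩
      · exact Or.inl h4
      · exact Or.inr ⟨om_inj h4, h5⟩
    · rintro ⟨hy, hx, hlt⟩
      have hyN := hM.mem_of_mem hWN hy
      have hxN := hM.mem_of_mem hWN hx
      refine ⟨⟨hy, hx⟩, hM.pair_mem hyN hxN, ?_⟩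
      obtain ⟨m, η, hm, hη, rfl⟩ := (hW y).1 hy
      obtain ⟨n, ξ, hn, hξ, rfl⟩ := (hW x).1 hx
      rw [hval _ m η hm hη rfl, hval _ n ξ hn hξ rfl, om_lex hη hξ] at hlt
      have h1 := hM.of_pair_mem hyN
      have h2 := hM.of_pair_mem hxN
      refine ⟨⟨_, hyN⟩, ⟨_, hxN⟩, ⟨_, h1.1⟩, ⟨_, h1.2⟩, ⟨_, h2.1⟩, ⟨_, h2.2⟩, rfl, rfl, rfl, ?_⟩
      rcases hlt with h4 | ⟨h4, h5⟩
      · exact Or.inl (Ordinal.toZFSet_mem_toZFSet_iff.2 h4)
      · exact Or.inr ⟨congrArg Ordinal.toZFSet h4, Ordinal.toZFSet_mem_toZFSet_iff.2 h5⟩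
  obtain ⟨RN, hRN⟩ : ∃ z : M, z.1 = RR := ⟨⟨_, hRR⟩, rfl⟩
  -- recursion
  obtain ⟨F, hF, hFr⟩ := CTM.recursion (hN := hM) (R := fun y x : M => ZFSet.pair y.1 x.1 ∈ RN.1)
    (𝒢 := fun x r v => ∀ z : M, z.1 ∈ v.1 ↔ ∃ y : M, r y z)
    (by
      (repeat' first
      | exact DT.var _ | exact DT.last | exact DT.const _ | assumption
      | refine Dfn.pairMem ?_ ?_ ?_ | refine Dfn.isPair ?_ ?_ ?_ | refine Dfn.mem ?_ ?_))
    (by
      show hM.Dfn (fun v : Fin 3 → M => ∀ z : M, z.1 ∈ (v 2).1 ↔ ∃ y : M,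
        (ZFSet.pair y.1 (v 0).1 ∈ RN.1 ∧ ZFSet.pair y.1 z.1 ∈ (v 1).1))
      (repeat' first
      | exact DT.var _ | exact DT.last | exact DT.const _ | assumption
      | refine Dfn.pairMem ?_ ?_ ?_ | refine Dfn.isPair ?_ ?_ ?_ | refine Dfn.mem ?_ ?_
      | refine Dfn.eqv ?_ ?_ | refine Dfn.eq ?_ ?_ | refine Dfn.subset ?_ ?_
      | refine Dfn.and ?_ ?_ | refine Dfn.or ?_ ?_ | refine Dfn.iff ?_ ?_ | refine Dfn.not ?_
      | refine Dfn.imp ?_ ?_ | refine Dfn.all ?_ | refine Dfn.ex ?_ | exact Dfn.false'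
      | refine Dfn.ballZ ?_ ?_ | refine Dfn.bexZ ?_ ?_ | exact Dfn.const _))
    (by
      intro x
      obtain ⟨e, he, he'⟩ := hM.exists_sep (P := fun y => ZFSet.pair y.1 x.1 ∈ RN.1) (by
        (repeat' first
          | exact DT.var _ | exact DT.last | exact DT.const _ | assumption
          | refine Dfn.pairMem ?_ ?_ ?_ | refine Dfn.isPair ?_ ?_ ?_ | refine Dfn.mem ?_ ?_)) hWN
      refine ⟨e, he, fun y => ?_⟩
      constructor
      · intro hy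
        obtain ⟨_, _, h3⟩ := (he' _).1 hy
        exact h3
      · intro hy
        refine (he' _).2 ⟨?_, y.2, hy⟩
        have hy' : ZFSet.pair y.1 x.1 ∈ RR := by rw [← hRN]; exact hy
        exact ((hR _ _).1 hy').1)
    (by
      refine Subrelation.wf (r := InvImage (· < ·) (fun x : M => val x.1)) ?_ (InvImage.wf _ wellFounded_lt)
      intro y x hyx
      have hy' : ZFSet.pair y.1 x.1 ∈ RR := by rw [← hRN]; exact hyx
      exact ((hR _ _).1 hy').2.2)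
    (by
      intro x r v v' h1 h2
      exact Subtype.ext (hM.ext' v.2 v'.2 fun z => (h1 z).trans (h2 z).symm))
    (by
      intro x h' h1 h2
      obtain ⟨b, hb, hb'⟩ := hM.exists_repl (F := fun y z => ZFSet.pair y.1 x.1 ∈ RN.1 ∧ ZFSet.pair y.1 z.1 ∈ h'.1) (by
        (repeat' first
          | exact DT.var _ | exact DT.last | exact DT.const _ | assumption
          | refine Dfn.pairMem ?_ ?_ ?_ | refine Dfn.isPair ?_ ?_ ?_ | refine Dfn.mem ?_ ?_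
          | refine Dfn.and ?_ ?_)) hWN (by
        rintro y _ z z' ⟨h3, h4⟩ ⟨h5, h6⟩
        exact h2 y h3 z z' h4 h6)
      refine ⟨⟨b, hb⟩, fun z => ?_⟩
      rw [hb']
      constructor
      · rintro ⟨y, _, h3, h4⟩
        exact ⟨y, h3, h4⟩
      · rintro ⟨y, h3, h4⟩
        have hy' : ZFSet.pair y.1 x.1 ∈ RR := by rw [← hRN]; exact h3
        exact ⟨y, ((hR _ _).1 hy').1, h3, h4⟩)
  have hrep : ∀ ζ : Ordinal.{0}, ζ < κ * Ordinal.omega0 →
      ∃ x : M, x.1 ∈ ZFSet.prod omZ κ.toZFSet ∧ val x.1 = ζ := by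
    intro ζ hζ
    have h1 : ζ / κ < Ordinal.omega0 := (Ordinal.lt_mul_iff_div_lt hκ0.ne').1 hζ
    have h2 : ζ % κ < κ := Ordinal.mod_lt _ hκ0.ne'
    have h3 : ZFSet.pair (ζ / κ).toZFSet (ζ % κ).toZFSet ∈ ZFSet.prod omZ κ.toZFSet :=
      (hW _).2 ⟨_, _, h1, h2, rfl⟩
    refine ⟨⟨_, hM.mem_of_mem hWN h3⟩, h3, ?_⟩
    rw [hval _ _ _ h1 h2 rfl]
    exact Ordinal.div_add_mod _ _
  have hvlt : ∀ x : ZFSet.{0}, x ∈ ZFSet.prod omZ κ.toZFSet → val x < κ * Ordinal.omega0 := by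
    intro x hx
    obtain ⟨m, η, hm, hη, rfl⟩ := (hW x).1 hx
    rw [hval _ m η hm hη rfl]
    have := om_lex1 (η' := 0) hη hm
    rwa [add_zero] at this
  have main : ∀ a : Ordinal.{0}, ∀ x : M, x.1 ∈ ZFSet.prod omZ κ.toZFSet → val x.1 = a →
      (F x).1 = a.toZFSet := by
    intro a
    induction a using WellFoundedLT.induction with
    | ind a ih =>
      intro x hx hxa
      ext z
      constructor
      · intro hz
        obtain ⟨y, h1, h2⟩ := (hFr x ⟨z, hM.mem_of_mem (F x).2 hz⟩).1 hz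
        have hy' : ZFSet.pair y.1 x.1 ∈ RR := by rw [← hRN]; exact h1
        obtain ⟨h3, _, h4⟩ := (hR _ _).1 hy'
        rw [hxa] at h4
        have h5 := ih _ h4 y h3 rfl
        rw [h2] at h5
        have h5 : z = (val y.1).toZFSet := h5
        rw [h5]
        exact Ordinal.toZFSet_mem_toZFSet_iff.2 h4
      · intro hz
        obtain ⟨ζ, hζ, rfl⟩ := Ordinal.mem_toZFSet_iff.1 hz
        obtain ⟨y, h1, h2⟩ := hrep ζ (hζ.trans (hxa ▸ hvlt x.1 hx))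
        have h5 := ih ζ hζ y h1 h2
        rw [← h5]
        refine (hFr x (F y)).2 ⟨y, ?_, rfl⟩
        have : ZFSet.pair y.1 x.1 ∈ RR := (hR _ _).2 ⟨h1, hx, by rw [h2, hxa]; exact hζ⟩
        rw [hRN]; exact this
  obtain ⟨b, hb, hb'⟩ := hM.exists_repl (F := fun x y => F x = y) hF hWN (by
    intro x _ y y' h1 h2
    rw [← h1, ← h2])
  have hbe : b = Bs κ := by
    ext z
    constructor
    · intro hz
      obtain ⟨x, h1, h2⟩ := (hb' ⟨z, hM.mem_of_mem hb hz⟩).1 hz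
      have h3 := main _ x h1 rfl
      rw [h2] at h3
      have h3 : z = (val x.1).toZFSet := h3
      rw [h3]
      exact Ordinal.toZFSet_mem_toZFSet_iff.2 (hvlt _ h1)
    · intro hz
      obtain ⟨ζ, hζ, rfl⟩ := Ordinal.mem_toZFSet_iff.1 hz
      obtain ⟨x, h1, h2⟩ := hrep ζ hζ
      have h3 := main ζ x h1 h2
      rw [← h3]
      exact (hb' (F x)).2 ⟨x, h1, rfl⟩
  have hBN : Bs κ ∈ M := hbe ▸ hb
  refine ⟨hBN, ?_⟩
  have hsub : (omZ : ZFSet.{0}) ⊆ κ.toZFSet := by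
    intro z hz
    rw [card_omZ] at hz
    obtain ⟨ζ, hζ, rfl⟩ := Ordinal.mem_toZFSet_iff.1 hz
    exact Ordinal.toZFSet_mem_toZFSet_iff.2 (hζ.trans_le hκω)
  have h1 : Cvr M κ.toZFSet (ZFSet.prod omZ κ.toZFSet) :=
    cvr_prod2 hM hκN hκω hωN hκN (cvr_of_subset hM hκN hsub) (cvr_of_subset hM hκN (fun _ h => h))
  refine Cvr.trans hM hκN hWN hBN h1 (cvr_of_dfn hM (F := fun x y => F x = y) hF hWN hBN (fun y _ x x' h2 h3 => h2.symm.trans h3) ?_)
  intro x hx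
  rw [← hbe] at hx
  exact (hb' x).1 hx

theorem om_lt {M : Set ZFSet.{0}} {κ Ω lam : Ordinal.{0}} (h : Cv M κ Ω lam) : κ * Ordinal.omega0 < lam := by
  by_contra hc
  rw [not_lt] at hc
  refine h.hlam ((om_cvr h.hM h.hκN h.hκω).2.mono fun z hz => ?_)
  obtain ⟨ζ, hζ, rfl⟩ := Ordinal.mem_toZFSet_iff.1 hz
  exact Ordinal.toZFSet_mem_toZFSet_iff.2 (hζ.trans_le hc)

end Pool.Agent.H17.CF
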