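import Pool.Agent.H17.CF.C.Loc
import Pool.Agent.H17.CF.B.Phi
import Pool.Agent.H17.CF.B.Oo

/-!
# CF-C7: a valid instruction stays valid at later stages

`VI_lift`: `X`, `x`, `m`: `Ent`, `TR` are monotone (`α ⊆ δ`). `τ ≠ ∅`: `τ ⊆ .. × Sn Ω v α ⊆ .. × Sn Ω v δ` (`Sn_mono`), `TGN` by `oo_tgn`
(`E = omZ`, `c = ∅`); for `c` with `DD v δ c` use `phi` (B/Phi.lean) with `s := v`, `t := τ`, `E := omZ`, `Λ = β := δ`, `c₀ := cres c α`,
`dd_res`; `Ctb M omZ` is clear.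
-/

set_option autoImplicit false
set_option linter.unusedVariables false
set_option linter.unusedSectionVars false
set_option linter.unusedSimpArgs false
set_option linter.unusedTactic false
set_option linter.unreachableTactic false

open Pool.Agent.H17.Omega Pool.Agent.H17.Omega.CTM Pool.Agent.H52.GC Pool.Agent.H7.IG

namespace Pool.Agent.H17.CF

theorem lift_ord_sub {α δ : Ordinal.{0}} (h : α ≤ δ) : α.toZFSet ⊆ δ.toZFSet := by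
  intro x hx
  obtain ⟨ξ, hξ, rfl⟩ := Ordinal.mem_toZFSet_iff.1 hx
  exact Ordinal.toZFSet_mem_toZFSet_iff.2 (hξ.trans_le h)

theorem lift_Ent {Ω : Ordinal.{0}} {α β : ZFSet.{0}} (h : α ⊆ β) : Ent Ω α ⊆ Ent Ω β := by
  intro e he
  rw [mem_Ent] at he ⊢
  obtain ⟨μ, hμ, h1⟩ := he
  exact ⟨μ, h hμ, h1⟩

theorem lift_finS {X Y : ZFSet.{0}} (h : X ⊆ Y) : finS X ⊆ finS Y := by
  intro a ha
  rw [mem_finS] at ha ⊢
  exact ⟨fun z hz => h (ha.1 hz), ha.2⟩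

theorem lift_prod {X X' Y Y' : ZFSet.{0}} (h : X ⊆ X') (h' : Y ⊆ Y') : ZFSet.prod X Y ⊆ ZFSet.prod X' Y' := by
  intro z hz
  rw [ZFSet.mem_prod] at hz ⊢
  obtain ⟨a, ha, b, hb, rfl⟩ := hz
  exact ⟨a, h ha, b, h' hb, rfl⟩

theorem VI_lift {M : Set ZFSet.{0}} (hM : CTM M) {Ω : Ordinal.{0}} (hΩ : IsOm1 M Ω) (hω : Ordinal.omega0 ≤ Ω)
    {B v : ZFSet.{0}} (hB : B ∈ M) (hv : v ∈ M) {α δ : Ordinal.{0}} (hδ : δ.toZFSet ∈ M) (hαδ : α ≤ δ)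
    (hV : Vld M Ω B v δ.toZFSet) {X x m τ : ZFSet.{0}} (hτ : τ ∈ M) (h : VI M Ω B v α.toZFSet X x m τ) :
    VI M Ω B v δ.toZFSet X x m τ := by
  have hs := lift_ord_sub hαδ
  have hα : (α.toZFSet : ZFSet.{0}).IsOrdinal := ZFSet.isOrdinal_toZFSet α
  have hδo : (δ.toZFSet : ZFSet.{0}).IsOrdinal := ZFSet.isOrdinal_toZFSet δ
  obtain ⟨h1, h2, h3, h4⟩ := h
  refine ⟨fun z hz => lift_prod (fun _ h => h) (lift_finS (lift_Ent hs)) (h1 hz), ?_, ?_, ?_⟩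
  · rcases h2 with h2 | h2
    · exact Or.inl h2
    · exact Or.inr (lift_prod hs (fun _ h => h) h2)
  · rcases h3 with h3 | ⟨θ, hθ, F, hF, h5, h6⟩
    · exact Or.inl h3
    · exact Or.inr ⟨θ, hs hθ, F, hF, h5, h6⟩
  · rcases h4 with h4 | ⟨h5, h6, h7⟩
    · exact Or.inl h4
    · refine Or.inr ⟨fun z hz => lift_prod (fun _ h => h) (Sn_mono hω hs) (h5 hz),
        oo_tgn hω hα hδo hs h5 h6, fun c hc => ?_⟩
      have hc₀ := dd_res hα hδo hs hc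
      exact phi hM hΩ hB hv hM.omZ_mem (by
        rw [ctb_iff_cvr hM]
        exact (or_self_iff).1 (cvr_total hM hM.omZ_mem hM.omZ_mem)) hτ hδ hV hαδ h5 h6 hc₀ (h7 _ hc₀) hαδ le_rfl hc rfl

end Pool.Agent.H17.CF
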