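import Pool.Agent.H17.CF.C.Seq
import Pool.Agent.H17.CF.C.Lift

/-!
# CF-C9: bookkeeping

`bk_dense`: let `u₀ = sres s α`. Let `v ∈ P`, `u₀ ⊆ v`. By `P1_ext` there is `v' ∈ P`, `v ⊆ v'`, of length `δ ≥ α, β` and `≥` the length of `v`. `u₀ = sres v' α` (`vld_sub`), so the instruction
is valid at `α` for `v'` (`VI.congr`, `ag_sres`), hence at `δ` (`VI_lift`), so `insert (δ, ins ..) v' ∈ P` (`vld_succ`, `Cv.lim`).
`seq_bk`: let `(X, x, m, τ)` be valid at `α < lam` for `s` in `M₁ = M[g]`; it is valid for `u₀ = sres s α ∈ M` (`VI.congr`), so in `M` (`VI_down`).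
The set of the `v ∈ P` with an occurrence `(μ, ins X x m τ) ∈ v` with `μ ≥ α, β` is definable over `M` (parameters `X, x, m, τ` in `M`: `x`, `m` are in `M` as they are
`∅` or elements of `TR α`, `α × finS B`) and dense below `u₀ ∈ g`: `Fr.gen_dfn`. An element of `g` is a subset of `s`.
-/

set_option autoImplicit false
set_option linter.unusedVariables false
set_option linter.unusedSectionVars false
set_option linter.unusedSimpArgs false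
set_option linter.unusedTactic false
set_option linter.unreachableTactic false

open Pool.Agent.H17.Omega Pool.Agent.H17.Omega.CTM Pool.Agent.H52.GC Pool.Agent.H7.IG

namespace Pool.Agent.H17.CF

variable {M : Set ZFSet.{0}} {κ Ω lam : Ordinal.{0}}

theorem bk_VI_mem (h : Cv M κ Ω lam) {M' : Set ZFSet.{0}} {s X x m τ : ZFSet.{0}} {α : Ordinal.{0}}
    (hα : α.toZFSet ∈ M) (hV : VI M' Ω (Bs κ) s α.toZFSet X x m τ) : x ∈ M ∧ m ∈ M := by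
  have hM := h.hM
  have hB : Bs κ ∈ M := (om_cvr hM h.hκN h.hκω).1
  refine ⟨?_, ?_⟩
  · rcases hV.2.1 with h1 | h1
    · rw [h1]
      exact hM.empty_mem
    · rw [TR, ZFSet.mem_prod] at h1
      obtain ⟨a, ha, b, hb, rfl⟩ := h1
      exact hM.pair_mem (hM.mem_of_mem hα ha) (hM.mem_of_mem (hM.natZ_mem_N 4) hb)
  · rcases hV.2.2.1 with h1 | ⟨θ, hθ, F, hF, -, rfl⟩
    · rw [h1]
      exact hM.empty_mem
    · refine hM.pair_mem (hM.mem_of_mem hα hθ) ?_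
      rw [mem_finS] at hF
      exact FinZ.mem (X := Bs κ) hM hF.2 fun z hz => hM.mem_of_mem hB (hF.1 hz)

theorem bk_dense (h : Cv M κ Ω lam) {P : ZFSet.{0}} (hP : P1R M Ω (Bs κ) lam P) {u₀ : ZFSet.{0}} {α β : Ordinal.{0}}
    (hα : α < lam) (hβ : β < lam) (hu₀ : u₀ ∈ M) (hv₀ : Vld M Ω (Bs κ) u₀ α.toZFSet) {X x m τ : ZFSet.{0}}
    (hX : X ∈ M) (hτ : τ ∈ M) (hV : VI M Ω (Bs κ) u₀ α.toZFSet X x m τ) {v : ZFSet.{0}} (hv : v ∈ P) (huv : u₀ ⊆ v) :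
    ∃ v' ∈ P, v ⊆ v' ∧ ∃ μ, β ≤ μ ∧ α ≤ μ ∧ μ < lam ∧ ZFSet.pair μ.toZFSet (ins X x m τ) ∈ v' := by
  have hM := h.hM
  have hω := h.hω
  have hB : Bs κ ∈ M := (om_cvr hM h.hκN h.hκω).1
  have hin : ∀ {δ : Ordinal.{0}}, δ < lam → δ.toZFSet ∈ M := fun hδ =>
    hM.mem_of_mem h.hlamN (Ordinal.toZFSet_mem_toZFSet_iff.2 hδ)
  obtain ⟨hvM, γ, hγ, hvγ⟩ := (hP v).1 hv
  have hδ : max (max α β) γ < lam := max_lt (max_lt hα hβ) hγ
  have hαδ : α ≤ max (max α β) γ := (le_max_left α β).trans (le_max_left _ _)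
  have hβδ : β ≤ max (max α β) γ := (le_max_right α β).trans (le_max_left _ _)
  have hγδ : γ ≤ max (max α β) γ := le_max_right _ _
  generalize max (max α β) γ = δ at hδ hαδ hβδ hγδ
  obtain ⟨v', hv'P, hvv', hv'δ⟩ := P1_ext h hP hvM hvγ hγδ hδ
  have hv'M : v' ∈ M := ((hP v').1 hv'P).1
  obtain ⟨-, hsub⟩ := vld_sub hv₀ hv'δ (fun z hz => hvv' (huv hz))
  have hag : Ag u₀ v' α.toZFSet := by
    rw [hsub]
    intro μ hμ i
    exact (ag_sres (s := v') α.toZFSet μ hμ i).symm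
  have hV1 : VI M Ω (Bs κ) v' α.toZFSet X x m τ :=
    VI.congr hω (ZFSet.isOrdinal_toZFSet α) hag (vld_mok hv₀ _) hV
  have hV2 : VI M Ω (Bs κ) v' δ.toZFSet X x m τ :=
    VI_lift hM h.hΩ hω hB hv'M (hin hδ) hαδ hv'δ hτ hV1
  obtain ⟨hx, hm⟩ := bk_VI_mem h (hin hα) hV
  have hi : ins X x m τ ∈ M := hM.pair_mem (hM.pair_mem hX hx) (hM.pair_mem hm hτ)
  refine ⟨insert (ZFSet.pair δ.toZFSet (ins X x m τ)) v', (hP _).2 ⟨?_, Order.succ δ, h.lim δ hδ, ?_⟩,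
    fun z hz => ZFSet.mem_insert_iff.2 (Or.inr (hvv' hz)), δ, hβδ, hαδ, hδ, ZFSet.mem_insert_iff.2 (Or.inl rfl)⟩
  · exact hM.insert_mem (hM.pair_mem (hin hδ) hi) hv'M
  · exact vld_succ hω hv'δ hV2

theorem seq_bk (h : Cv M κ Ω lam) {P : ZFSet.{0}} (hP : P1R M Ω (Bs κ) lam P) {g : Set ZFSet.{0}}
    (hg : Fr M P (exR P) g) {s : ZFSet.{0}} (hs : GS M κ Ω lam g s) :
    ∀ α < lam, ∀ X x m τ, X ∈ ExtZ M g → τ ∈ ExtZ M g → VI (ExtZ M g) Ω (Bs κ) s α.toZFSet X x m τ →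
    ∀ β < lam, ∃ μ, β ≤ μ ∧ α ≤ μ ∧ μ < lam ∧ ZFSet.pair μ.toZFSet (ins X x m τ) ∈ s := by
  intro α hα X x m τ hX hτ hV β hβ
  have hM := h.hM
  have hω := h.hω
  have hin : ∀ {δ : Ordinal.{0}}, δ < lam → δ.toZFSet ∈ M := fun hδ =>
    hM.mem_of_mem h.hlamN (Ordinal.toZFSet_mem_toZFSet_iff.2 hδ)
  obtain ⟨hug, huM, hu⟩ := hs.res α hα
  have hag : Ag s (sres s α.toZFSet) α.toZFSet := ag_sres (s := s) α.toZFSet
  have hmok : MOk s α.toZFSet := by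
    intro μ hμ X x m τ h1
    exact vld_mok hu α.toZFSet μ hμ X x m τ ((hag μ hμ _).1 h1)
  have hV1 : VI (ExtZ M g) Ω (Bs κ) (sres s α.toZFSet) α.toZFSet X x m τ :=
    VI.congr hω (ZFSet.isOrdinal_toZFSet α) hag hmok hV
  obtain ⟨hXM, hτM, hV2⟩ := VI_down h (gen_nk h hP hg) huM hα hX hτ hV1
  obtain ⟨hx, hm⟩ := bk_VI_mem h (hin hα) hV2
  have hi : ins X x m τ ∈ M := hM.pair_mem (hM.pair_mem hXM hx) (hM.pair_mem hm hτM)
  have hD : hg.hM.Dfn (fun v : Fin 1 → M => ∃ μ ∈ lam.toZFSet, α.toZFSet ⊆ μ ∧ β.toZFSet ⊆ μ ∧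
      ZFSet.pair μ (ins X x m τ) ∈ (v 0).1) :=
    Df.bex (P := fun v μ => α.toZFSet ⊆ μ ∧ β.toZFSet ⊆ μ ∧ ZFSet.pair μ (ins X x m τ) ∈ (v 0).1)
      (PD.const h.hlamN)
      (Dfn.and (Df.sub (PD.const (hin hα)) (PD.var _)) (Dfn.and (Df.sub (PD.const (hin hβ)) (PD.var _))
        (Df.mem (PD.pair (PD.var _) (PD.const hi)) (PD.var _))))
  obtain ⟨q, hqg, μ, hμ, h1, h2, h3⟩ := hg.gen_dfn (D := fun q : M => ∃ μ ∈ lam.toZFSet, α.toZFSet ⊆ μ ∧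
    β.toZFSet ⊆ μ ∧ ZFSet.pair μ (ins X x m τ) ∈ q.1) hD hug (by
      intro r hr
      obtain ⟨hrP, -, hur⟩ := mem_exR.1 hr
      obtain ⟨v', hv'P, hrv', μ, hβμ, hαμ, hμ, hmem⟩ := bk_dense h hP hα hβ huM hu hXM hτM hV2 hrP hur
      exact ⟨⟨v', ((hP v').1 hv'P).1⟩, mem_exR.2 ⟨hv'P, hrP, hrv'⟩, μ.toZFSet,
        Ordinal.toZFSet_mem_toZFSet_iff.2 hμ, Ordinal.toZFSet_subset_toZFSet_iff.2 hαμ,
        Ordinal.toZFSet_subset_toZFSet_iff.2 hβμ, hmem⟩)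
  obtain ⟨μ', hμ', rfl⟩ := Ordinal.mem_toZFSet_iff.1 hμ
  exact ⟨μ', Ordinal.toZFSet_subset_toZFSet_iff.1 h2, Ordinal.toZFSet_subset_toZFSet_iff.1 h1, hμ',
    (hs.iff _).2 ⟨q.1, hqg, h3⟩⟩

end Pool.Agent.H17.CF
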