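import Pool.Agent.H17.CF.C.Defs
import Pool.Agent.H17.CF.A.Sub
import Pool.Agent.H7.IG.Tk2
import Pool.Agent.H7.IG.Tk4

/-!
# CF-C4: closed forcing does not add short sequences (complete, helper69)

`Clo M P R κ`: every chain of `P` in `M` of size `≤ κ` has a lower bound.
`clo_fn`: let `ζ` be an open name of `f ⊆ κ × A` (`exists_sname`). Let `D` be the (definable) set of the `p ∈ P` such that
EITHER (a) there are `ξ ∈ κ`, `y ≠ y'` with `((ξ, y), p), ((ξ, y'), p) ∈ ζ`, OR (b) there is `ξ ∈ κ` such that no `q ≤ p` and `y ∈ A` have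
`((ξ, y), q) ∈ ζ`, OR (c) there is `h ∈ M` with `Fn h κ A` and `((ξ, y), p) ∈ ζ` for all `(ξ, y) ∈ h`.
`D` is dense: let `p ∈ P`. If some `q ≤ p` satisfies (a) or (b) we are done. Otherwise every `q ≤ p` has for every `ξ ∈ κ` an extension
`q' ≤ q` and `y` with `((ξ, y), q') ∈ ζ`. By `exists_dep` (H7/IG/Tk2.lean; `δ := κ`, values in the set `{q ∈ P : q ≤ p}`,
`Φ g q`: the domain of `g` is `α` and [`q ≤ r` for all values `r` of `g`] and there is `y ∈ A` with `((α, y), q) ∈ ζ`; the domain `α` of `g`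
can be expressed: `ξ = α` iff `ξ` is not in the domain of `g` and all elements of `ξ` are) there is a decreasing
sequence `(q_ξ)` in `M` (at step `α` the set of the values of `g` is a chain of size `≤ κ`, so it has a lower bound `q ≤ p` by `Clo`
(for `α = 0` take `p`), and extend it). Let `q*` be a lower bound of all `q_ξ` (`Clo`); `h = {(ξ, y) : ((ξ, y), q_ξ) ∈ ζ}`; it is a function by the
negation of (a) for `q*` (`ζ` is open), so (c) holds for `q*`.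
So `g` contains some `p ∈ D` (`Fr.gen_dfn` or `GenZ.gen`, with `D ∈ M` by separation). (a) is impossible as `f = vv g ζ` is a
function; (b) is impossible: `f` has a value `y` at `ξ`, so `((ξ, y), q) ∈ ζ` for some `q ∈ g`; a common extension `r ∈ g` of `p, q` has `((ξ, y), r) ∈ ζ`.
So (c): `h ⊆ vv g ζ = f`, and `h`, `f` are functions on `κ`, so `f = h ∈ M`.
-/

set_option autoImplicit false
set_option linter.unusedVariables false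
set_option linter.unusedSectionVars false
set_option linter.unusedSimpArgs false
set_option linter.unusedTactic false
set_option linter.unreachableTactic false

open Pool.Agent.H17.Omega Pool.Agent.H17.Omega.CTM Pool.Agent.H52.GC Pool.Agent.H7.IG

namespace Pool.Agent.H17.CF

/-- Every chain of `P` in `M` of size `≤ κ` has a lower bound. -/
def Clo (M : Set ZFSet.{0}) (P R : ZFSet.{0}) (κ : Ordinal.{0}) : Prop :=
  ∀ F ∈ M, F ⊆ P → (∃ u, u ∈ F) → (∀ u ∈ F, ∀ v ∈ F, ZFSet.pair u v ∈ R ∨ ZFSet.pair v u ∈ R) → Cvr M κ.toZFSet F →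
    ∃ p ∈ P, ∀ u ∈ F, ZFSet.pair p u ∈ R

/-- the recursion clause -/
def CloP (R ζ : ZFSet.{0}) {M : Set ZFSet.{0}} (G q : M) : Prop :=
  (∀ x s : M, ZFSet.pair x.1 s.1 ∈ G.1 → ZFSet.pair q.1 s.1 ∈ R) ∧
    ∃ α y : M, (∀ x : M, x.1 ∈ α.1 ↔ ∃ s : M, ZFSet.pair x.1 s.1 ∈ G.1) ∧
      ZFSet.pair (ZFSet.pair α.1 y.1) q.1 ∈ ζ

theorem clo_P {M : Set ZFSet.{0}} (hM : CTM M) {R ζ : ZFSet.{0}} (hR : R ∈ M) (hζ : ζ ∈ M) :
    hM.Dfn (fun v : Fin 2 → M => CloP R ζ (v 0) (v 1)) := by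
  show hM.Dfn (fun v : Fin 2 → M => (∀ x s : M, ZFSet.pair x.1 s.1 ∈ (v 0).1 → ZFSet.pair (v 1).1 s.1 ∈ R) ∧
    ∃ α y : M, (∀ x : M, x.1 ∈ α.1 ↔ ∃ s : M, ZFSet.pair x.1 s.1 ∈ (v 0).1) ∧
      ZFSet.pair (ZFSet.pair α.1 y.1) (v 1).1 ∈ ζ)
  (repeat' first
    | exact PD.var _ | exact PD.const ‹_› | refine PD.pair ?_ ?_
    | refine Df.mem ?_ ?_ | refine Dfn.and ?_ ?_ | refine Dfn.or ?_ ?_ | refine Dfn.not ?_
    | refine Dfn.imp ?_ ?_ | refine Dfn.iff ?_ ?_ | refine Dfn.all ?_ | refine Dfn.ex ?_)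

/-- a lower bound of the values of a coherent sequence -/
theorem clo_low {M : Set ZFSet.{0}} {P R : ZFSet.{0}} {g : Set ZFSet.{0}} {κ : Ordinal.{0}} (h : Fr M P R g)
    (hc : Clo M P R κ) (hκN : κ.toZFSet ∈ M) {ζ A' : ZFSet.{0}} {r : M} (hr : r.1 ∈ P) (hA' : A' ∈ M)
    (hA'P : ∀ q ∈ A', q ∈ P ∧ ZFSet.pair q r.1 ∈ R) {α : Ordinal.{0}} (hα : α ≤ κ) {G : M}
    (hG : Fn G.1 α.toZFSet A')
    (hcoh : ∀ β < α, ∀ r' y : M, r'.1 = rs G.1 β.toZFSet → ZFSet.pair β.toZFSet y.1 ∈ G.1 → CloP R ζ r' y) :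
    ∃ p₀ : M, ZFSet.pair p₀.1 r.1 ∈ R ∧ ∀ x s, ZFSet.pair x s ∈ G.1 → ZFSet.pair p₀.1 s ∈ R := by
  have hM := h.hM
  obtain ⟨F, hF, hF'⟩ := hM.exists_sep (P := fun s => ∃ x : M, ZFSet.pair x.1 s.1 ∈ G.1) (by
    (repeat' first
    | exact PD.var _ | exact PD.const G.2 | refine PD.pair ?_ ?_
    | refine Df.mem ?_ ?_ | refine Dfn.ex ?_)) hA'
  have hFm : ∀ s, s ∈ F ↔ ∃ x, ZFSet.pair x s ∈ G.1 := by
    intro s
    rw [hF']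
    constructor
    · rintro ⟨_, _, x, hx⟩
      exact ⟨x.1, hx⟩
    · rintro ⟨x, hx⟩
      obtain ⟨a, ha, b, hb, e⟩ := hG.sub _ hx
      rw [ZFSet.pair_inj] at e
      have h1 := hM.of_pair_mem (hM.mem_of_mem G.2 hx)
      exact ⟨e.2 ▸ hb, h1.2, ⟨x, h1.1⟩, hx⟩
  have hdom : ∀ x s, ZFSet.pair x s ∈ G.1 → (∃ β < α, β.toZFSet = x) ∧ s ∈ A' := by
    intro x s hx
    obtain ⟨a, ha, b, hb, e⟩ := hG.sub _ hx
    rw [ZFSet.pair_inj] at e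
    exact ⟨Ordinal.mem_toZFSet_iff.1 (e.1 ▸ ha), e.2 ▸ hb⟩
  by_cases hne : ∃ u, u ∈ F
  · obtain ⟨p₀, hp₀, hlow⟩ := hc F hF (by
      intro s hs
      obtain ⟨x, hx⟩ := (hFm s).1 hs
      exact (hA'P s (hdom x s hx).2).1) hne (by
      have key : ∀ β γ : Ordinal.{0}, β < γ → ∀ u v, ZFSet.pair β.toZFSet u ∈ G.1 →
          ZFSet.pair γ.toZFSet v ∈ G.1 → ZFSet.pair v u ∈ R := by
        intro β γ hβγ u v hu hv
        obtain ⟨⟨γ', hγ', e⟩, -⟩ := hdom _ _ hv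
        rw [toZFSet_inj] at e
        subst e
        have h1 := hM.of_pair_mem (hM.mem_of_mem G.2 hv)
        have h2 := hM.of_pair_mem (hM.mem_of_mem G.2 hu)
        have h3 := (hcoh γ' hγ' ⟨rs G.1 γ'.toZFSet, rs_mem hM G.2 h1.1⟩ ⟨v, h1.2⟩ rfl hv).1
          ⟨β.toZFSet, h2.1⟩ ⟨u, h2.2⟩
          (pair_mem_rs.2 ⟨Ordinal.toZFSet_mem_toZFSet_iff.2 hβγ, hu⟩)
        exact h3
      intro u hu v hv
      obtain ⟨x, hx⟩ := (hFm u).1 hu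
      obtain ⟨y, hy⟩ := (hFm v).1 hv
      obtain ⟨⟨β, hβ, rfl⟩, -⟩ := hdom _ _ hx
      obtain ⟨⟨γ, hγ, rfl⟩, -⟩ := hdom _ _ hy
      rcases lt_trichotomy β γ with h1 | h1 | h1
      · exact Or.inr (key β γ h1 u v hx hy)
      · subst h1
        rw [hG.fnD.uni _ _ _ hx hy]
        exact Or.inl (h.po.refl v (hA'P v (hdom _ _ hy).2).1)
      · exact Or.inl (key γ β h1 v u hy hx)) ⟨G.1, G.2, fun y _ x x' h1 h2 => hG.fnD.uni _ _ _ h1 h2, by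
      intro s hs
      obtain ⟨x, hx⟩ := (hFm s).1 hs
      obtain ⟨⟨β, hβ, rfl⟩, -⟩ := hdom _ _ hx
      exact ⟨β.toZFSet, Ordinal.toZFSet_mem_toZFSet_iff.2 (hβ.trans_le hα), hx⟩⟩
    obtain ⟨u, hu⟩ := hne
    obtain ⟨x, hx⟩ := (hFm u).1 hu
    exact ⟨⟨p₀, hM.mem_of_mem h.hP hp₀⟩, h.po.trans _ _ _ (hlow u hu) (hA'P u (hdom x u hx).2).2,
      fun x s hxs => hlow s ((hFm s).2 ⟨x, hxs⟩)⟩
  · exact ⟨r, h.po.refl _ hr, fun x s hxs => absurd ⟨s, (hFm s).2 ⟨x, hxs⟩⟩ hne⟩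

/-- the dense set -/
def CloD (κ : Ordinal.{0}) (R ζ : ZFSet.{0}) {M : Set ZFSet.{0}} (q : M) : Prop :=
  (∃ ξ : M, ξ.1 ∈ κ.toZFSet ∧ ∀ q' y : M, ZFSet.pair q'.1 q.1 ∈ R →
    ¬ ZFSet.pair (ZFSet.pair ξ.1 y.1) q'.1 ∈ ζ) ∨
  ∃ w : M, (∀ ξ : M, ξ.1 ∈ κ.toZFSet → ∃ y : M, ZFSet.pair ξ.1 y.1 ∈ w.1) ∧
    ∀ z : M, z.1 ∈ w.1 → ZFSet.pair z.1 q.1 ∈ ζ

theorem clo_D {M : Set ZFSet.{0}} (hM : CTM M) {κ : Ordinal.{0}} {R ζ : ZFSet.{0}} (hκN : κ.toZFSet ∈ M)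
    (hR : R ∈ M) (hζ : ζ ∈ M) : hM.Dfn (fun v : Fin 1 → M => CloD κ R ζ (v 0)) := by
  show hM.Dfn (fun v : Fin 1 → M => (∃ ξ : M, ξ.1 ∈ κ.toZFSet ∧ ∀ q' y : M, ZFSet.pair q'.1 (v 0).1 ∈ R →
    ¬ ZFSet.pair (ZFSet.pair ξ.1 y.1) q'.1 ∈ ζ) ∨
    ∃ w : M, (∀ ξ : M, ξ.1 ∈ κ.toZFSet → ∃ y : M, ZFSet.pair ξ.1 y.1 ∈ w.1) ∧
    ∀ z : M, z.1 ∈ w.1 → ZFSet.pair z.1 (v 0).1 ∈ ζ)
  (repeat' first
    | exact PD.var _ | exact PD.const ‹_› | refine PD.pair ?_ ?_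
    | refine Df.mem ?_ ?_ | refine Dfn.and ?_ ?_ | refine Dfn.or ?_ ?_ | refine Dfn.not ?_
    | refine Dfn.imp ?_ ?_ | refine Dfn.iff ?_ ?_ | refine Dfn.all ?_ | refine Dfn.ex ?_)

theorem clo_dense {M : Set ZFSet.{0}} {P R : ZFSet.{0}} {g : Set ZFSet.{0}} {κ : Ordinal.{0}} (h : Fr M P R g)
    (hc : Clo M P R κ) (hκN : κ.toZFSet ∈ M) {ζ : ZFSet.{0}} (hζ : ζ ∈ M)
    (hζo : ∀ x p q, ZFSet.pair x q ∈ ζ → ZFSet.pair p q ∈ R → ZFSet.pair x p ∈ ζ) (r : M) (hr : r.1 ∈ P) :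
    ∃ q : M, ZFSet.pair q.1 r.1 ∈ R ∧ CloD κ R ζ q := by
  have hM := h.hM
  by_cases hb : ∃ q : M, ZFSet.pair q.1 r.1 ∈ R ∧ ∃ ξ : M, ξ.1 ∈ κ.toZFSet ∧ ∀ q' y : M,
      ZFSet.pair q'.1 q.1 ∈ R → ¬ ZFSet.pair (ZFSet.pair ξ.1 y.1) q'.1 ∈ ζ
  · obtain ⟨q, h1, h2⟩ := hb
    exact ⟨q, h1, Or.inl h2⟩
  push Not at hb
  obtain ⟨A', hA', hA'm⟩ := hM.exists_sep (P := fun q => ZFSet.pair q.1 r.1 ∈ R) (by
    (repeat' first
    | exact PD.var _ | exact PD.const r.2 | exact PD.const h.hR | refine PD.pair ?_ ?_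
    | refine Df.mem ?_ ?_)) h.hP
  have hA'P : ∀ q ∈ A', q ∈ P ∧ ZFSet.pair q r.1 ∈ R := by
    intro q hq
    obtain ⟨h1, _, h2⟩ := (hA'm q).1 hq
    exact ⟨h1, h2⟩
  obtain ⟨G, hG, hcoh⟩ := exists_dep hM (clo_P hM h.hR hζ) hκN hA' (by
    intro α hα G hG hcoh
    obtain ⟨p₀, hp₀, hlow⟩ := clo_low h hc hκN hr hA' hA'P hα.le hG hcoh
    have hαN : α.toZFSet ∈ M := hM.mem_of_mem hκN (Ordinal.toZFSet_mem_toZFSet_iff.2 hα)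
    obtain ⟨q', y, hq', hy⟩ := hb p₀ hp₀ ⟨α.toZFSet, hαN⟩ (Ordinal.toZFSet_mem_toZFSet_iff.2 hα)
    have hq'r := h.po.trans _ _ _ hq' hp₀
    refine ⟨q', (hA'm q'.1).2 ⟨(h.po.mem hq').1, q'.2, hq'r⟩, ?_, ⟨α.toZFSet, hαN⟩, y, ?_, hy⟩
    · intro x s hxs
      exact h.po.trans _ _ _ hq' (hlow _ _ hxs)
    · intro x
      constructor
      · intro hx
        obtain ⟨s, hs, hxs⟩ := hG.tot _ hx
        exact ⟨⟨s, hM.mem_of_mem hA' hs⟩, hxs⟩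
      · rintro ⟨s, hxs⟩
        obtain ⟨a, ha, b, hb, e⟩ := hG.sub _ hxs
        rw [ZFSet.pair_inj] at e
        exact e.1 ▸ ha)
  obtain ⟨q, hq, hlow⟩ := clo_low h hc hκN hr hA' hA'P le_rfl hG hcoh
  refine ⟨q, hq, Or.inr ?_⟩
  obtain ⟨w, hw, hw'⟩ := hM.exists_sep (P := fun z => ZFSet.pair z.1 q.1 ∈ ζ) (by
    (repeat' first
    | exact PD.var _ | exact PD.const q.2 | exact PD.const hζ | refine PD.pair ?_ ?_
    | refine Df.mem ?_ ?_)) (hM.sUnion_mem (hM.sUnion_mem hζ))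
  refine ⟨⟨w, hw⟩, fun ξ hξ => ?_, fun z hz => ?_⟩
  · obtain ⟨β, hβ, e⟩ := Ordinal.mem_toZFSet_iff.1 hξ
    obtain ⟨s, hs, hxs⟩ := hG.tot _ hξ
    rw [← e] at hxs
    have hβN : β.toZFSet ∈ M := e ▸ ξ.2
    have hsM : s ∈ M := hM.mem_of_mem hA' hs
    obtain ⟨-, α, y, hα, hy⟩ := hcoh β hβ ⟨rs G.1 β.toZFSet, rs_mem hM G.2 hβN⟩ ⟨s, hsM⟩ rfl hxs
    have hαβ : α.1 = β.toZFSet := by
      refine hM.ext' α.2 hβN fun x => ?_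
      rw [hα x]
      constructor
      · rintro ⟨t, ht⟩
        exact (pair_mem_rs.1 ht).1
      · intro hx
        have hx' : x.1 ∈ κ.toZFSet := by
          obtain ⟨γ, hγ, e'⟩ := Ordinal.mem_toZFSet_iff.1 hx
          rw [← e']
          exact Ordinal.toZFSet_mem_toZFSet_iff.2 (hγ.trans hβ)
        obtain ⟨t, ht, hxt⟩ := hG.tot _ hx'
        exact ⟨⟨t, hM.mem_of_mem hA' ht⟩, pair_mem_rs.2 ⟨hx, hxt⟩⟩
    have hy : ZFSet.pair (ZFSet.pair α.1 y.1) s ∈ ζ := hy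
    rw [hαβ, e] at hy
    have hy' := hζo _ _ _ hy (hlow _ _ hxs)
    refine ⟨y, (hw' _).2 ⟨?_, hM.pair_mem ξ.2 y.2, hy'⟩⟩
    exact (mem_sUnion_sUnion_pair hy').1
  · obtain ⟨_, _, h1⟩ := (hw' z.1).1 hz
    exact h1

theorem clo_fn {M : Set ZFSet.{0}} {P R : ZFSet.{0}} {g : Set ZFSet.{0}} {κ : Ordinal.{0}} (h : Fr M P R g)
    (hc : Clo M P R κ) (hκN : κ.toZFSet ∈ M) {f A : ZFSet.{0}} (hf : f ∈ ExtZ M g) (hA : A ∈ M)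
    (hfn : Fn f κ.toZFSet A) : f ∈ M := by
  have hM := h.hM
  have hfs : f ⊆ ZFSet.prod κ.toZFSet A := by
    intro z hz
    obtain ⟨x, hx, y, hy, rfl⟩ := hfn.sub z hz
    exact ZFSet.pair_mem_prod.2 ⟨hx, hy⟩
  obtain ⟨ζ, hζ, hζs, hζo, hζf⟩ := exists_sname h (hM.prod_mem hκN hA) hf hfs
  obtain ⟨p, hp⟩ := h.gen.ne
  obtain ⟨q, hq, hD⟩ := h.gen_dfn (D := CloD κ R ζ) (clo_D hM hκN h.hR hζ) hp (fun r hr =>
    clo_dense h hc hκN hζ hζo r (h.po.mem hr).1)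
  rcases hD with ⟨ξ, hξ, h1⟩ | ⟨w, h1, h2⟩
  · exfalso
    obtain ⟨y, hy, hxy⟩ := hfn.tot _ hξ
    rw [← hζf, mem_vv] at hxy
    obtain ⟨s, hs, hxs⟩ := hxy
    obtain ⟨t, ht, htq, hts⟩ := h.gen.dir _ hq _ hs
    exact h1 ⟨t, hM.mem_of_mem h.hP (h.gen.sub t ht)⟩ ⟨y, hM.mem_of_mem hA hy⟩ htq (hζo _ _ _ hxs hts)
  · have hwf : ∀ z ∈ w.1, z ∈ f := by
      intro z hz
      rw [← hζf, mem_vv]
      exact ⟨q.1, hq, h2 ⟨z, hM.mem_of_mem w.2 hz⟩ hz⟩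
    have e : f = w.1 := by
      ext z
      refine ⟨fun hz => ?_, hwf z⟩
      obtain ⟨x, hx, y, hy, rfl⟩ := hfn.sub z hz
      obtain ⟨y', hy'⟩ := h1 ⟨x, hM.mem_of_mem hκN hx⟩ hx
      rw [hfn.fnD.uni _ _ _ hz (hwf _ hy')]
      exact hy'
    rw [e]
    exact w.2

end Pool.Agent.H17.CF
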