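import Pool.Agent.H17.CF.FDefs

/-!
# CF-C: definitions of the first step of the forcing (bookkeeping)

`Cv M κ Ω lam`: `κ` is an infinite cardinal of the ctm `M`, `Ω = ω₁ ≤ κ`, `lam = κ⁺`, in `M`.
`VI M Ω B s α X x m τ`: `(X, x, m, τ)` is a valid instruction at stage `α` for the sequence `s` (the same
conditions as in `Vld`).
`Bk M κ Ω lam s`: `s ∈ M` is a valid sequence of instructions of length `lam` with bookkeeping property: every
instruction that is valid at some stage `α < lam` occurs cofinally often.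
`P1R M Ω B lam P`: `P` is the set of all valid sequences of length `< lam`. `exR P`: reverse inclusion.
-/

set_option autoImplicit false
set_option linter.unusedVariables false
set_option linter.unusedSectionVars false
set_option linter.unusedSimpArgs false
set_option linter.unusedTactic false
set_option linter.unreachableTactic false

open Pool.Agent.H17.Omega Pool.Agent.H17.Omega.CTM Pool.Agent.H52.GC Pool.Agent.H7.IG

namespace Pool.Agent.H17.CF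

structure Cv (M : Set ZFSet.{0}) (κ Ω lam : Ordinal.{0}) : Prop where
  hM : CTM M
  hκN : κ.toZFSet ∈ M
  hκω : Ordinal.omega0 ≤ κ
  hκ : ∀ α < κ, ¬ Cvr M α.toZFSet κ.toZFSet
  hΩ : IsOm1 M Ω
  hΩκ : Ω ≤ κ
  hlamN : lam.toZFSet ∈ M
  hlamκ : κ < lam
  hlam : ¬ Cvr M κ.toZFSet lam.toZFSet
  hcov : ∀ α < lam, Cvr M κ.toZFSet α.toZFSet

/-- The base `κ · ω`. -/
noncomputable def Bs (κ : Ordinal.{0}) : ZFSet.{0} := (κ * Ordinal.omega0).toZFSet

/-- Valid instructions. -/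
def VI (M : Set ZFSet.{0}) (Ω : Ordinal.{0}) (B s α X x m τ : ZFSet.{0}) : Prop :=
  X ⊆ ZFSet.prod (finS B) (finS (Ent Ω α)) ∧ (x = ∅ ∨ x ∈ TR α) ∧
    (m = ∅ ∨ ∃ θ ∈ α, ∃ F ∈ finS B, B ⊆ θ ∧ m = ZFSet.pair θ F) ∧
    (τ = ∅ ∨ (τ ⊆ ZFSet.prod (ZFSet.prod (Nd Ω omZ) (Nd Ω omZ)) (Sn Ω s α) ∧
      TGN Ω omZ (Ln Ω s α ∅) (OO Ω omZ s α τ) ∧
      ∀ c, DD s α c → CC M (QQ Ω omZ (Sn Ω s α) (OO Ω omZ s α τ))
        (RQ Ω omZ (Sn Ω s α) (Ln Ω s α c) (OO Ω omZ s α τ))))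

/-- A valid sequence of instructions with bookkeeping property. -/
structure Bk (M : Set ZFSet.{0}) (κ Ω lam : Ordinal.{0}) (s : ZFSet.{0}) : Prop where
  cv : Cv M κ Ω lam
  hs : s ∈ M
  vld : Vld M Ω (Bs κ) s lam.toZFSet
  bk : ∀ α < lam, ∀ X x m τ, X ∈ M → τ ∈ M → VI M Ω (Bs κ) s α.toZFSet X x m τ →
    ∀ β < lam, ∃ μ, β ≤ μ ∧ α ≤ μ ∧ μ < lam ∧ ZFSet.pair μ.toZFSet (ins X x m τ) ∈ s

/-- `P` is the set of all valid sequences of length `< lam`. -/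
def P1R (M : Set ZFSet.{0}) (Ω : Ordinal.{0}) (B : ZFSet.{0}) (lam : Ordinal.{0}) (P : ZFSet.{0}) : Prop :=
  ∀ u, u ∈ P ↔ u ∈ M ∧ ∃ α < lam, Vld M Ω B u α.toZFSet

/-- Reverse inclusion on `P`. -/
noncomputable def exR (P : ZFSet.{0}) : ZFSet.{0} :=
  ZFSet.sep (fun z => ∃ u v, z = ZFSet.pair u v ∧ v ⊆ u) (ZFSet.prod P P)

end Pool.Agent.H17.CF
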