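import Pool.Agent.H17.CF.C.Defs
import Pool.Agent.H17.CF.B.Cond
import Pool.Agent.H17.CF.B.Oo
import Pool.Agent.H17.CF.B.Phi

/-!
# CF-C2: validity is a local property

`Ag s s' α`: `s` and `s'` agree below `α`. `MOk s α`: the markers of `s` below `α` are of the right form (needed for
`Sn_congr`). `sres s α`: the part of `s` below `α`.
`Sn` is `Sn_congr` (B/Cond.lean); `Ln`, `OO` are defined by separation from products of `Sn` (`LE`, `Bel` do not depend on `s`),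
so `rw`. `DD`: in `Edg s ρ ρ'` with `ρ ∈ TR α` the stage `μ` of `ρ = row μ r` is in `α`.
`VI.congr`: rewrite with these.
`vld_iff`: unfold both sides; `uni` for the stages below `β`, and every pair in `s` has its stage in `β` by `sub`.
`vld_res`: `vld_iff` and `VI.congr` (`s` and `sres s α` agree below every `μ ≤ α`). `vld_succ`: `vld_iff`; `s` and the
longer sequence agree below every `μ ≤ α`. `vld_lim`: `vld_iff`: for `μ < β` use `vld_iff` for `sres s (succ μ)`; `sres s (succ μ)` and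
`s` agree below `μ` and at `μ`.
`vld_sub`: `u ⊆ v`; every `μ < α` has an instruction in `u`, hence in `v`, so `μ < β` (`sub` of `v`, the stage is determined: `ZFSet.pair_inj`).
So `α ≤ β`; an element of `v` of stage `μ < α` is the instruction of `u` at `μ` by `uni` of `v`.
`vld_cmp`: by `vld_sub` both are restrictions of `w`. `vld_len`: apply `vld_sub` twice with `u ⊆ u`.
-/

set_option autoImplicit false
set_option linter.unusedVariables false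
set_option linter.unusedSectionVars false
set_option linter.unusedSimpArgs false
set_option linter.unusedTactic false
set_option linter.unreachableTactic false

open Pool.Agent.H17.Omega Pool.Agent.H17.Omega.CTM Pool.Agent.H52.GC Pool.Agent.H7.IG

namespace Pool.Agent.H17.CF

/-- `s` and `s'` agree below `α`. -/
def Ag (s s' α : ZFSet.{0}) : Prop := ∀ μ ∈ α, ∀ i, ZFSet.pair μ i ∈ s ↔ ZFSet.pair μ i ∈ s'

/-- The markers of `s` below `α` are of the right form. -/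
def MOk (s α : ZFSet.{0}) : Prop :=
  ∀ μ ∈ α, ∀ X x m τ, ZFSet.pair μ (ins X x m τ) ∈ s → m = ∅ ∨ ∃ θ ∈ μ, ∃ F, m = ZFSet.pair θ F

/-- The part of `s` below `α`. -/
noncomputable def sres (s α : ZFSet.{0}) : ZFSet.{0} := ZFSet.sep (fun z => ∃ μ ∈ α, ∃ i, z = ZFSet.pair μ i) s

theorem mem_sres {s α μ i : ZFSet.{0}} : ZFSet.pair μ i ∈ sres s α ↔ ZFSet.pair μ i ∈ s ∧ μ ∈ α := by
  rw [sres, ZFSet.mem_sep]
  constructor
  · rintro ⟨h1, μ', hμ', i', h2⟩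
    rw [ZFSet.pair_inj] at h2
    rw [h2.1]
    exact ⟨h2.1 ▸ h1, hμ'⟩
  · rintro ⟨h1, h2⟩
    exact ⟨h1, μ, h2, i, rfl⟩

theorem sres_sub {s α : ZFSet.{0}} : sres s α ⊆ s := fun _ h => (ZFSet.mem_sep.1 h).1

theorem ins_inj {X x m τ X' x' m' τ' : ZFSet.{0}} (h : ins X x m τ = ins X' x' m' τ') :
    X = X' ∧ x = x' ∧ m = m' ∧ τ = τ' := by
  unfold ins at h
  rw [ZFSet.pair_inj, ZFSet.pair_inj, ZFSet.pair_inj] at h
  exact ⟨h.1.1, h.1.2, h.2.1, h.2.2⟩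

theorem Ag.symm {s s' α : ZFSet.{0}} (h : Ag s s' α) : Ag s' s α := fun μ hμ i => (h μ hμ i).symm

variable {Ω : Ordinal.{0}} {s s' α c B : ZFSet.{0}}

theorem Sn.ag (hω : Ordinal.omega0 ≤ Ω) (hα : α.IsOrdinal) (h : Ag s s' α) (hm : MOk s α) :
    Sn Ω s α = Sn Ω s' α := Sn_congr (B := ∅) hω hα h hm

theorem Ln.ag (hω : Ordinal.omega0 ≤ Ω) (hα : α.IsOrdinal) (h : Ag s s' α) (hm : MOk s α) :
    Ln Ω s α c = Ln Ω s' α c := by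
  unfold Ln
  rw [Sn.ag hω hα h hm]

theorem OO.ag (hω : Ordinal.omega0 ≤ Ω) (hα : α.IsOrdinal) (h : Ag s s' α) (hm : MOk s α) {E t : ZFSet.{0}} :
    OO Ω E s α t = OO Ω E s' α t := by
  unfold OO
  rw [Sn.ag hω hα h hm]

theorem Edg.ag (h : Ag s s' α) {ρ ρ' : ZFSet.{0}} (hρ : ρ ∈ TR α) (he : Edg s ρ ρ') : Edg s' ρ ρ' := by
  have hrow : ∀ (μ : ZFSet.{0}) (r : ℕ), ρ = row μ r → μ ∈ α := by
    intro μ r h1
    rw [h1, row, TR, ZFSet.pair_mem_prod] at hρ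
    exact hρ.1
  obtain ⟨μ, h1 | ⟨h1, X, m, τ, h2⟩ | ⟨h1, θ, F, f, ⟨X, x, τ, h2⟩, h3⟩⟩ := he
  · exact ⟨μ, Or.inl h1⟩
  · exact ⟨μ, Or.inr (Or.inl ⟨h1, X, m, τ, (h μ (hrow μ 2 h1) _).1 h2⟩)⟩
  · exact ⟨μ, Or.inr (Or.inr ⟨h1, θ, F, f, ⟨X, x, τ, (h μ (hrow μ 3 h1) _).1 h2⟩, h3⟩)⟩

theorem DD.ag1 (h : Ag s s' α) (hc : DD s α c) : DD s' α c := by
  rcases hc with h1 | h1 | ⟨ρ, hρ, ρ', hρ', h1, h2⟩
  · exact Or.inl h1
  · exact Or.inr (Or.inl h1)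
  · exact Or.inr (Or.inr ⟨ρ, hρ, ρ', hρ', Edg.ag h hρ h1, h2⟩)

theorem DD.ag (h : Ag s s' α) : DD s α c ↔ DD s' α c := ⟨DD.ag1 h, DD.ag1 h.symm⟩

theorem VI.congr {M : Set ZFSet.{0}} (hω : Ordinal.omega0 ≤ Ω) (hα : α.IsOrdinal) (h : Ag s s' α) (hm : MOk s α)
    {X x m τ : ZFSet.{0}} (hv : VI M Ω B s α X x m τ) : VI M Ω B s' α X x m τ := by
  obtain ⟨h1, h2, h3, h4⟩ := hv
  refine ⟨h1, h2, h3, ?_⟩
  rcases h4 with h4 | ⟨h4, h5, h6⟩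
  · exact Or.inl h4
  · right
    rw [← Sn.ag hω hα h hm, ← OO.ag hω hα h hm, ← Ln.ag hω hα h hm]
    refine ⟨h4, h5, fun c hc => ?_⟩
    rw [← Ln.ag hω hα h hm]
    exact h6 c ((DD.ag h).2 hc)

variable {M : Set ZFSet.{0}}

theorem vld_iff {β : Ordinal.{0}} : Vld M Ω B s β.toZFSet ↔
    (∀ z ∈ s, ∃ μ ∈ β.toZFSet, ∃ X x m τ, z = ZFSet.pair μ (ins X x m τ)) ∧
    ∀ μ < β, ∃ X x m τ, ZFSet.pair μ.toZFSet (ins X x m τ) ∈ s ∧
      (∀ i, ZFSet.pair μ.toZFSet i ∈ s → i = ins X x m τ) ∧ VI M Ω B s μ.toZFSet X x m τ := by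
  constructor
  · intro h
    refine ⟨h.sub, fun μ hμ => ?_⟩
    obtain ⟨X, x, m, τ, h1⟩ := h.tot μ.toZFSet (Ordinal.toZFSet_mem_toZFSet_iff.2 hμ)
    exact ⟨X, x, m, τ, h1, fun i hi => h.uni _ _ _ hi h1,
      h.hX _ _ _ _ _ h1, h.hx _ _ _ _ _ h1, h.hm _ _ _ _ _ h1, h.hτ _ _ _ _ _ h1⟩
  · rintro ⟨h1, h2⟩
    have h3 : ∀ μ i, ZFSet.pair μ i ∈ s → ∃ ν < β, μ = ν.toZFSet := by
      intro μ i hi
      obtain ⟨μ', hμ', X, x, m, τ, h4⟩ := h1 _ hi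
      rw [ZFSet.pair_inj] at h4
      obtain ⟨ν, hν, rfl⟩ := Ordinal.mem_toZFSet_iff.1 hμ'
      exact ⟨ν, hν, h4.1⟩
    have h4 : ∀ μ X x m τ, ZFSet.pair μ (ins X x m τ) ∈ s → VI M Ω B s μ X x m τ := by
      intro μ X x m τ hi
      obtain ⟨ν, hν, rfl⟩ := h3 _ _ hi
      obtain ⟨X', x', m', τ', _, h6, h7⟩ := h2 ν hν
      obtain ⟨rfl, rfl, rfl, rfl⟩ := ins_inj (h6 _ hi)
      exact h7
    refine ⟨h1, ?_, ?_, fun μ X x m τ h => (h4 μ X x m τ h).1, fun μ X x m τ h => (h4 μ X x m τ h).2.1,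
      fun μ X x m τ h => (h4 μ X x m τ h).2.2.1, fun μ X x m τ h => (h4 μ X x m τ h).2.2.2⟩
    · intro μ hμ
      obtain ⟨ν, hν, rfl⟩ := Ordinal.mem_toZFSet_iff.1 hμ
      obtain ⟨X, x, m, τ, h5, _⟩ := h2 ν hν
      exact ⟨X, x, m, τ, h5⟩
    · intro μ i j hi hj
      obtain ⟨ν, hν, rfl⟩ := h3 _ _ hi
      obtain ⟨X, x, m, τ, _, h5, _⟩ := h2 ν hν
      rw [h5 i hi, h5 j hj]

theorem vld_mok {β : ZFSet.{0}} (h : Vld M Ω B s β) (α : ZFSet.{0}) : MOk s α := by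
  intro μ _ X x m τ h1
  rcases h.hm _ _ _ _ _ h1 with h2 | ⟨θ, hθ, F, _, _, h2⟩
  · exact Or.inl h2
  · exact Or.inr ⟨θ, hθ, F, h2⟩

theorem vld_VI {β μ X x m τ : ZFSet.{0}} (h : Vld M Ω B s β) (hμ : ZFSet.pair μ (ins X x m τ) ∈ s) :
    VI M Ω B s μ X x m τ :=
  ⟨h.hX _ _ _ _ _ hμ, h.hx _ _ _ _ _ hμ, h.hm _ _ _ _ _ hμ, h.hτ _ _ _ _ _ hμ⟩

theorem loc_ag_res {s : ZFSet.{0}} {μ α : Ordinal.{0}} (h : μ ≤ α) : Ag s (sres s α.toZFSet) μ.toZFSet := by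
  intro ν hν i
  rw [mem_sres]
  obtain ⟨γ, hγ, rfl⟩ := Ordinal.mem_toZFSet_iff.1 hν
  exact ⟨fun h1 => ⟨h1, Ordinal.toZFSet_mem_toZFSet_iff.2 (lt_of_lt_of_le hγ h)⟩, fun h1 => h1.1⟩

theorem vld_res {α β : Ordinal.{0}} (hω : Ordinal.omega0 ≤ Ω) (hαβ : α ≤ β) (h : Vld M Ω B s β.toZFSet) :
    Vld M Ω B (sres s α.toZFSet) α.toZFSet := by
  refine vld_iff.2 ⟨?_, fun μ hμ => ?_⟩
  · intro z hz
    have h1 := ZFSet.mem_sep.1 hz
    obtain ⟨hzs, μ, hμ, i, h2⟩ := h1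
    obtain ⟨μ', hμ', X, x, m, τ, h3⟩ := h.sub z hzs
    refine ⟨μ, hμ, X, x, m, τ, ?_⟩
    have h4 := h2.symm.trans h3
    rw [ZFSet.pair_inj] at h4
    rw [h2, h4.2]
  · obtain ⟨X, x, m, τ, h1, h2, h3⟩ := (vld_iff.1 h).2 μ (lt_of_lt_of_le hμ hαβ)
    refine ⟨X, x, m, τ, mem_sres.2 ⟨h1, Ordinal.toZFSet_mem_toZFSet_iff.2 hμ⟩, fun i hi => h2 i (sres_sub hi), ?_⟩
    exact VI.congr hω (ZFSet.isOrdinal_toZFSet _) (loc_ag_res hμ.le) (vld_mok h _) h3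

theorem vld_succ {α : Ordinal.{0}} {X x m τ : ZFSet.{0}} (hω : Ordinal.omega0 ≤ Ω) (h : Vld M Ω B s α.toZFSet)
    (hv : VI M Ω B s α.toZFSet X x m τ) :
    Vld M Ω B (insert (ZFSet.pair α.toZFSet (ins X x m τ)) s) (Order.succ α).toZFSet := by
  have hag : ∀ μ ≤ α, Ag s (insert (ZFSet.pair α.toZFSet (ins X x m τ)) s) μ.toZFSet := by
    intro μ hμ ν hν i
    obtain ⟨γ, hγ, rfl⟩ := Ordinal.mem_toZFSet_iff.1 hν
    rw [ZFSet.mem_insert_iff]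
    constructor
    · exact fun h1 => Or.inr h1
    · rintro (h1 | h1)
      · rw [ZFSet.pair_inj] at h1
        exact absurd (toZFSet_inj.1 h1.1) (lt_of_lt_of_le hγ hμ).ne
      · exact h1
  refine vld_iff.2 ⟨?_, fun μ hμ => ?_⟩
  · intro z hz
    rcases ZFSet.mem_insert_iff.1 hz with h1 | h1
    · exact ⟨α.toZFSet, Ordinal.toZFSet_mem_toZFSet_iff.2 (Order.lt_succ α), X, x, m, τ, h1⟩
    · obtain ⟨μ, hμ, h2⟩ := h.sub z h1
      obtain ⟨γ, hγ, rfl⟩ := Ordinal.mem_toZFSet_iff.1 hμ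
      exact ⟨_, Ordinal.toZFSet_mem_toZFSet_iff.2 (hγ.trans (Order.lt_succ α)), h2⟩
  · rcases (Order.lt_succ_iff.1 hμ).lt_or_eq with h1 | h1
    · obtain ⟨X', x', m', τ', h2, h3, h4⟩ := (vld_iff.1 h).2 μ h1
      refine ⟨X', x', m', τ', ZFSet.mem_insert_iff.2 (Or.inr h2), fun i hi => ?_,
        VI.congr hω (ZFSet.isOrdinal_toZFSet _) (hag μ h1.le) (vld_mok h _) h4⟩
      rcases ZFSet.mem_insert_iff.1 hi with h5 | h5
      · rw [ZFSet.pair_inj] at h5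
        exact absurd (toZFSet_inj.1 h5.1) h1.ne
      · exact h3 i h5
    · subst h1
      refine ⟨X, x, m, τ, ZFSet.mem_insert_iff.2 (Or.inl rfl), fun i hi => ?_,
        VI.congr hω (ZFSet.isOrdinal_toZFSet _) (hag μ le_rfl) (vld_mok h _) hv⟩
      rcases ZFSet.mem_insert_iff.1 hi with h5 | h5
      · rw [ZFSet.pair_inj] at h5
        exact h5.2
      · obtain ⟨μ', hμ', X', x', m', τ', h6⟩ := h.sub _ h5
        rw [ZFSet.pair_inj] at h6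
        rw [← h6.1] at hμ'
        exact absurd (Ordinal.toZFSet_mem_toZFSet_iff.1 hμ') (lt_irrefl _)

theorem vld_lim {β : Ordinal.{0}} (hω : Ordinal.omega0 ≤ Ω)
    (h : ∀ α < β, Vld M Ω B (sres s (Order.succ α).toZFSet) (Order.succ α).toZFSet)
    (hs : ∀ z ∈ s, ∃ α < β, z ∈ sres s (Order.succ α).toZFSet) : Vld M Ω B s β.toZFSet := by
  refine vld_iff.2 ⟨?_, fun μ hμ => ?_⟩
  · intro z hz
    obtain ⟨α, hα, h1⟩ := hs z hz
    obtain ⟨μ, hμ, h2⟩ := (h α hα).sub z h1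
    obtain ⟨γ, hγ, rfl⟩ := Ordinal.mem_toZFSet_iff.1 hμ
    exact ⟨_, Ordinal.toZFSet_mem_toZFSet_iff.2 (lt_of_le_of_lt (Order.lt_succ_iff.1 hγ) hα), h2⟩
  · obtain ⟨X, x, m, τ, h1, h2, h3⟩ := (vld_iff.1 (h μ hμ)).2 μ (Order.lt_succ μ)
    refine ⟨X, x, m, τ, sres_sub h1, fun i hi => ?_, ?_⟩
    · exact h2 i (mem_sres.2 ⟨hi, Ordinal.toZFSet_mem_toZFSet_iff.2 (Order.lt_succ μ)⟩)
    · exact VI.congr hω (ZFSet.isOrdinal_toZFSet _) (loc_ag_res (Order.lt_succ μ).le).symm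
        (vld_mok (h μ hμ) _) h3

theorem vld_sub {u v : ZFSet.{0}} {α β : Ordinal.{0}} (h : Vld M Ω B u α.toZFSet) (h' : Vld M Ω B v β.toZFSet)
    (huv : u ⊆ v) : α ≤ β ∧ u = sres v α.toZFSet := by
  constructor
  · by_contra hc
    rw [not_le] at hc
    obtain ⟨X, x, m, τ, h1⟩ := h.tot β.toZFSet (Ordinal.toZFSet_mem_toZFSet_iff.2 hc)
    obtain ⟨μ', hμ', X', x', m', τ', h6⟩ := h'.sub _ (huv h1)
    rw [ZFSet.pair_inj] at h6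
    rw [← h6.1] at hμ'
    exact absurd (Ordinal.toZFSet_mem_toZFSet_iff.1 hμ') (lt_irrefl _)
  · ext z
    constructor
    · intro hz
      obtain ⟨μ, hμ, X, x, m, τ, rfl⟩ := h.sub z hz
      exact mem_sres.2 ⟨huv hz, hμ⟩
    · intro hz
      obtain ⟨hzv, μ, hμ, i, rfl⟩ := ZFSet.mem_sep.1 hz
      obtain ⟨X, x, m, τ, h1⟩ := h.tot μ hμ
      rw [h'.uni _ _ _ hzv (huv h1)]
      exact h1

theorem vld_len {u : ZFSet.{0}} {α β : Ordinal.{0}} (h : Vld M Ω B u α.toZFSet) (h' : Vld M Ω B u β.toZFSet) :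
    α = β :=
  le_antisymm (vld_sub h h' (fun _ hz => hz)).1 (vld_sub h' h (fun _ hz => hz)).1

theorem vld_cmp {u v w : ZFSet.{0}} {α β γ : Ordinal.{0}} (h : Vld M Ω B u α.toZFSet) (h' : Vld M Ω B v β.toZFSet)
    (h'' : Vld M Ω B w γ.toZFSet) (hu : u ⊆ w) (hv : v ⊆ w) (hαβ : α ≤ β) : u ⊆ v := by
  rw [(vld_sub h h'' hu).2, (vld_sub h' h'' hv).2]
  intro z hz
  obtain ⟨hzw, μ, hμ, i, rfl⟩ := ZFSet.mem_sep.1 hz
  obtain ⟨ν, hν, rfl⟩ := Ordinal.mem_toZFSet_iff.1 hμ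
  exact mem_sres.2 ⟨hzw, Ordinal.toZFSet_mem_toZFSet_iff.2 (lt_of_lt_of_le hν hαβ)⟩

theorem vld_sres_self {β : Ordinal.{0}} (h : Vld M Ω B s β.toZFSet) : sres s β.toZFSet = s := by
  ext z
  constructor
  · exact fun hz => sres_sub hz
  · intro hz
    obtain ⟨μ, hμ, X, x, m, τ, rfl⟩ := h.sub z hz
    exact mem_sres.2 ⟨hz, hμ⟩

theorem sres_sres {α β : ZFSet.{0}} (h : α ⊆ β) : sres (sres s β) α = sres s α := by
  ext z
  constructor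
  · intro hz
    obtain ⟨h1, μ, hμ, i, rfl⟩ := ZFSet.mem_sep.1 hz
    exact mem_sres.2 ⟨sres_sub h1, hμ⟩
  · intro hz
    obtain ⟨h1, μ, hμ, i, rfl⟩ := ZFSet.mem_sep.1 hz
    exact mem_sres.2 ⟨mem_sres.2 ⟨h1, h hμ⟩, hμ⟩

theorem ag_sres (α : ZFSet.{0}) : Ag s (sres s α) α := by
  intro μ hμ i
  rw [mem_sres]
  exact ⟨fun h => ⟨h, hμ⟩, fun h => h.1⟩

end Pool.Agent.H17.CF
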