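import Pool.Agent.H17.CF.C.Two

/-!
# CF-C12: the two steps as one step: the same extension

`two_one`: `P', R', g'` are `PS`, `RS`, `GG` (`gg_gen`). `M[g'] ⊆ M₁[G]`: by `Fr.min`: `M ⊆ M₁ ⊆ M₁[G]`, and `GG` is (as a set) an element of `M₁[G]`: separation from
`PS ∈ M` with the parameters `γ`, `Γ` (the sets `g ∈ M₁`, `G ∈ M₁[G]`, `Fr.mem_g`). `M₁[G] ⊆ M[g']`: first `g ∈ M[g']` (as a set, by separation from `P ∈ M` and `gg_fst`), so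
`M₁ ⊆ M[g']` (`Fr.min`), then `G ∈ M[g']` (separation from `finS (Ent Ω lam) ∈ M`, `gg_fst`), so `M₁[G] ⊆ M[g']` (`Fr.min` for `M₁`).
-/

set_option autoImplicit false
set_option linter.unusedVariables false
set_option linter.unusedSectionVars false
set_option linter.unusedSimpArgs false
set_option linter.unusedTactic false
set_option linter.unreachableTactic false

open Pool.Agent.H17.Omega Pool.Agent.H17.Omega.CTM Pool.Agent.H52.GC Pool.Agent.H7.IG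

namespace Pool.Agent.H17.CF

variable {M : Set ZFSet.{0}} {κ Ω lam : Ordinal.{0}}

/-- the set of the elements of `g` in a model that contains a set coding the pairs -/
theorem three_fst {N : Set ZFSet.{0}} (hN : CTM N) {A Γ : ZFSet.{0}} (hA : A ∈ N) (hΓ : Γ ∈ N) {g : Set ZFSet.{0}}
    (hgA : ∀ u ∈ g, u ∈ A) (hg : ∀ u, u ∈ g ↔ ∃ p, ZFSet.pair u p ∈ Γ) :
    ∃ γ ∈ N, ∀ z, z ∈ γ ↔ z ∈ g := by
  obtain ⟨γ, hγ, hγ'⟩ := hN.exists_sep (P := fun z => ∃ p : N, ZFSet.pair z.1 p.1 ∈ (⟨Γ, hΓ⟩ : N).1) (by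
    (repeat' first
      | exact DT.var _ | exact DT.last | exact DT.const _ | assumption
      | refine Dfn.pairMem ?_ ?_ ?_ | refine Dfn.isPair ?_ ?_ ?_ | refine Dfn.mem ?_ ?_
      | refine Dfn.and ?_ ?_ | refine Dfn.or ?_ ?_ | refine Dfn.not ?_
      | refine Dfn.ex ?_)) hA
  refine ⟨γ, hγ, fun z => ?_⟩
  rw [hγ']
  constructor
  · rintro ⟨_, _, p, hp⟩
    exact (hg z).2 ⟨p.1, hp⟩
  · intro hz
    obtain ⟨p, hp⟩ := (hg z).1 hz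
    have h1 := hgA z hz
    exact ⟨h1, hN.mem_of_mem hA h1, ⟨p, (hN.of_pair_mem (hN.mem_of_mem hΓ hp)).2⟩, hp⟩

theorem three_snd {N : Set ZFSet.{0}} (hN : CTM N) {A Γ : ZFSet.{0}} (hA : A ∈ N) (hΓ : Γ ∈ N) {g : Set ZFSet.{0}}
    (hgA : ∀ u ∈ g, u ∈ A) (hg : ∀ u, u ∈ g ↔ ∃ p, ZFSet.pair p u ∈ Γ) :
    ∃ γ ∈ N, ∀ z, z ∈ γ ↔ z ∈ g := by
  obtain ⟨γ, hγ, hγ'⟩ := hN.exists_sep (P := fun z => ∃ p : N, ZFSet.pair p.1 z.1 ∈ (⟨Γ, hΓ⟩ : N).1) (by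
    (repeat' first
      | exact DT.var _ | exact DT.last | exact DT.const _ | assumption
      | refine Dfn.pairMem ?_ ?_ ?_ | refine Dfn.isPair ?_ ?_ ?_ | refine Dfn.mem ?_ ?_
      | refine Dfn.and ?_ ?_ | refine Dfn.or ?_ ?_ | refine Dfn.not ?_
      | refine Dfn.ex ?_)) hA
  refine ⟨γ, hγ, fun z => ?_⟩
  rw [hγ']
  constructor
  · rintro ⟨_, _, p, hp⟩
    exact (hg z).2 ⟨p.1, hp⟩
  · intro hz
    obtain ⟨p, hp⟩ := (hg z).1 hz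
    have h1 := hgA z hz
    exact ⟨h1, hN.mem_of_mem hA h1, ⟨p, (hN.of_pair_mem (hN.mem_of_mem hΓ hp)).1⟩, hp⟩

theorem three_prod {N : Set ZFSet.{0}} (hN : CTM N) {Q γ Γ : ZFSet.{0}} (hQ : Q ∈ N) (hγ : γ ∈ N) (hΓ : Γ ∈ N) :
    ∃ x ∈ N, ∀ z, z ∈ x ↔ z ∈ Q ∧ ∃ u ∈ γ, ∃ p ∈ Γ, z = ZFSet.pair u p := by
  obtain ⟨x, hx, hx'⟩ := hN.exists_sep (P := fun z => ∃ u p : N, u.1 ∈ (⟨γ, hγ⟩ : N).1 ∧ p.1 ∈ (⟨Γ, hΓ⟩ : N).1 ∧
    z.1 = ZFSet.pair u.1 p.1) (by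
    (repeat' first
      | exact DT.var _ | exact DT.last | exact DT.const _ | assumption
      | refine Dfn.pairMem ?_ ?_ ?_ | refine Dfn.isPair ?_ ?_ ?_ | refine Dfn.mem ?_ ?_
      | refine Dfn.and ?_ ?_ | refine Dfn.or ?_ ?_ | refine Dfn.not ?_
      | refine Dfn.ex ?_)) hQ
  refine ⟨x, hx, fun z => ?_⟩
  rw [hx']
  constructor
  · rintro ⟨h1, _, u, p, hu, hp, h2⟩
    exact ⟨h1, u.1, hu, p.1, hp, h2⟩
  · rintro ⟨h1, u, hu, p, hp, h2⟩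
    exact ⟨h1, hN.mem_of_mem hQ h1, ⟨u, hN.mem_of_mem hγ hu⟩, ⟨p, hN.mem_of_mem hΓ hp⟩, hu, hp, h2⟩

theorem two_one (h : Cv M κ Ω lam) {P : ZFSet.{0}} (hPM : P ∈ M) (hP : P1R M Ω (Bs κ) lam P) {g : Set ZFSet.{0}}
    (hg : Fr M P (exR P) g) {s : ZFSet.{0}} (hs : GS M κ Ω lam g s) {G : Set ZFSet.{0}}
    (hG : Fr (ExtZ M g) (Sn Ω s lam.toZFSet) (Ln Ω s lam.toZFSet ∅) G) :
    ∃ P' R' g', Fr M P' R' g' ∧ ExtZ M g' = ExtZ (ExtZ M g) G := by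
  have hQ := gg_gen h hPM hP hg hs hG
  obtain ⟨hf1, hf2⟩ := gg_fst h hP hg hs hG
  have hM := h.hM
  have hEnt : finS (Ent Ω lam.toZFSet) ∈ M := finS_mem hM (Ent_mem hM h.hΩ.mem h.hlamN)
  refine ⟨_, _, _, hQ, Set.Subset.antisymm ?_ ?_⟩
  · have hN : CTM (ExtZ (ExtZ M g) G) := hG.ctm
    obtain ⟨γ, hγ, hγ'⟩ := hg.mem_g
    obtain ⟨Γ, hΓ, hΓ'⟩ := hG.mem_g
    obtain ⟨x, hx, hx'⟩ := three_prod hN (hG.sub (hg.sub hQ.hP)) (hG.sub hγ) hΓ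
    refine hQ.min hN (fun z hz => hG.sub (hg.sub hz)) hx (fun z => ?_)
    rw [hx']
    constructor
    · rintro ⟨h1, u, hu, p, hp, h2⟩
      exact ⟨h1, u, (hγ' u).1 hu, p, (hΓ' p).1 hp, h2⟩
    · rintro ⟨h1, u, hu, p, hp, h2⟩
      exact ⟨h1, u, (hγ' u).2 hu, p, (hΓ' p).2 hp, h2⟩
  · have hN := hQ.ctm
    obtain ⟨Γ, hΓ, hΓ'⟩ := hQ.mem_g
    obtain ⟨γ, hγ, hγ'⟩ := three_fst hN (hQ.sub hPM) hΓ (g := g) (fun u hu => hg.gen.sub u hu) (fun u => by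
      rw [hf1 u]
      exact exists_congr fun p => (hΓ' _).symm)
    have h1 : ExtZ M g ⊆ ExtZ M (GG M Ω (Bs κ) P (finS (Ent Ω lam.toZFSet)) g G) := hg.min hN hQ.sub hγ hγ'
    obtain ⟨γ₂, hγ₂, hγ₂'⟩ := three_snd hN (hQ.sub hEnt) hΓ (g := G) (fun u hu => (ZFSet.mem_sep.1 (hG.gen.sub u hu)).1)
      (fun u => by
      rw [hf2 u]
      exact exists_congr fun p => (hΓ' _).symm)
    exact hG.min hN h1 hγ₂ hγ₂'

end Pool.Agent.H17.CF
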