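import Pool.Agent.H17.CF.C.Bk
import Pool.Agent.H17.CF.C.Three

/-!
# CF-C: the first step of the forcing (plan for the captain)

GOAL. Let `Cv M κ Ω lam`. There is a valid sequence `s` and a two step extension of `M` that is also a one step extension:

`C_main`: there are `M₁`, `s` with `Bk M₁ κ Ω lam s`, `M ⊆ M₁`, such that every function of `M₁` from `κ` to an element of `M` is in
`M`, and such that for every generic `G` for `(Sn Ω s lam, Ln Ω s lam ∅)` over `M₁` there are `P, R, g` with `Fr M P R g`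
and `ExtZ M g = ExtZ M₁ G`.

PROOF. `B = Bs κ`. Let `P₁` be the set of the valid sequences of length `< lam` (`P1R`; it belongs to `M`: separation
from a power set, `Df.Vld`; the instructions of stage `α < lam` are elements of a set of `M`), ordered by end
extension (`exR P₁`; for valid sequences inclusion is end extension). Validity is local: `Vld M Ω B u α` iff for all `μ < α`
the instruction of stage `μ` satisfies `VI M Ω B (u|μ) μ`, and `Sn Ω u μ`, `Ln`, `OO`, `DD u μ` depend only on `u|μ` (`Sn_congr`).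
(C1) `P₁ ∈ M`; every `u ∈ P₁` of length `α` can be extended to each length `< lam` by trivial instructions
`ins ∅ ∅ ∅ ∅`; unions of increasing sequences of length `≤ κ` in `M` are in `P₁` (`lam` is regular).
(C2) Let `g` be `P₁`-generic over `M`, `M₁ = M[g]`, `s = ⋃ g`. Every `f ∈ M₁` from `κ` to `A ∈ M` is in `M`: by `exists_sname` let `ζ` be an
open name of `f ⊆ κ × A`; some `u₀ ∈ g` forces that it is a function (combinatorially, as in CF-A3: there is no
`u ≤ u₀` with two different values, and for every `ξ < κ` the `u` with a value at `ξ` are dense below `u₀`). Given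
`u ≤ u₀` build in `M` (`exists_dep` of H7/IG/Tk2, length `κ`) an increasing sequence `u_ξ` (at limits the union) such that
`u_{ξ+1}` decides the value at `ξ`; the union `u*` of the sequence decides `f` completely: the set of the `u*` such that for some
`h ∈ M` all `((ξ, h(ξ)), u*) ∈ ζ` is dense below `u₀` and definable, so `g` meets it and `f = h ∈ M`.
(C3) Hence: if `Cvr M κ A`, `A ∈ M`, then every subset of `A` in `M₁` is in `M`; `Cv M₁ κ Ω lam`; `Cvr M₁ κ A`/`Ctb` are absolute for
`A ∈ M` with `Cvr M κ A`; `CC M P R ↔ CC M₁ P R` if `Cvr M κ P`. For `u` valid of length `α < lam` the set `Sn Ω u α` has size `≤ κ` in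
`M` (`cvr_fin`, `cvr_prod2`), also `QQ Ω ω (Sn Ω u α) _`.
(C4) `s` is a function on `lam` (density), `Vld M₁ Ω B s lam` (locality, `CC` absolute).
(C5) bookkeeping: let `(X, x, m, τ)` be valid at `α < lam` for `s` in `M₁` (`X, τ ∈ M` by (C3)), `β < lam`. Below a `u₀ ∈ g` of
length `≥ α` the set of the `u` with an occurrence of the instruction at some `μ ≥ α, β` is dense: let `v ≤ u₀` be of
length `δ ≥ α, β` (extend it). Then the instruction is valid at stage `δ` for `v`, in `M`: for `τ ≠ ∅`: `Sn_mono`, `oo_tgn`,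
and for `c` with `DD v δ c` the ccc follows from `phi` in `M` for the valid sequence `v` (`c₀ = cres c α`, `dd_res`; the
ccc at `α` holds in `M₁`, hence in `M` by (C3)). So `v ∪ {(δ, ins X x m τ)} ∈ P₁`.
(C6) one step: `P* = {(u, p) : u ∈ P₁, p ∈ Sn Ω u (dom u)}`, `(u', p') ≤ (u, p)` iff `u ⊆ u'` and `p' ≤_∅ p`. Let `G` be generic over `M₁` for
`(Sn Ω s lam, ≤_∅)`. Then `G* = {(u, p) ∈ P* : u ∈ g, p ∈ G}` is `P*`-generic over `M`: let `D ∈ M` be dense in `P*`. In `M₁` the set
`D₁ = {p : ∃ u ∈ g, (u, p) ∈ D}` is dense in `Sn Ω s lam`: let `p ∈ Sn Ω s lam`; its stages are bounded, so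
`p ∈ Sn Ω u₀ (dom u₀)` for some `u₀ ∈ g`; the set of the `u` such that there is `p' ≤_∅ p` with `(u, p') ∈ D` is dense below `u₀`
(given `v ≤ u₀`: `(v, p) ∈ P*`). `G*` is a filter (two elements of `g` are comparable). `M[G*] = M₁[G]` by minimality
(`Fr.min`) in both directions: `g` and `G` are definable from `G*`: `g = {u : ∃ p, (u, p) ∈ G*}`, `G = {p : ∃ u, (u,p) ∈ G*}`.
-/

set_option autoImplicit false
set_option linter.unusedVariables false
set_option linter.unusedSectionVars false
set_option linter.unusedSimpArgs false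
set_option linter.unusedTactic false
set_option linter.unreachableTactic false

open Pool.Agent.H17.Omega Pool.Agent.H17.Omega.CTM Pool.Agent.H52.GC Pool.Agent.H7.IG

namespace Pool.Agent.H17.CF

theorem C_main {M : Set ZFSet.{0}} {κ Ω lam : Ordinal.{0}} (h : Cv M κ Ω lam) :
    ∃ (M₁ : Set ZFSet.{0}) (s : ZFSet.{0}), M ⊆ M₁ ∧ Bk M₁ κ Ω lam s ∧
      (∀ o : Ordinal.{0}, o.toZFSet ∈ M₁ ↔ o.toZFSet ∈ M) ∧
      (∀ f ∈ M₁, ∀ A ∈ M, Fn f κ.toZFSet A → f ∈ M) ∧
      ∀ G, Fr M₁ (Sn Ω s lam.toZFSet) (Ln Ω s lam.toZFSet ∅) G →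
        ∃ P R g, Fr M P R g ∧ ExtZ M g = ExtZ M₁ G := by
  obtain ⟨P, hPM, hP⟩ := exists_P1 h
  obtain ⟨g, hg, -⟩ := exists_genZ h.hM hPM (exR_mem h.hM hPM) exR_pre (P1_empty h hP)
  obtain ⟨s, hs⟩ := seq_gen h hP hg
  have hn := gen_nk h hP hg
  exact ⟨ExtZ M g, s, hn.sub, ⟨hn.cv h, hs.mem, seq_vld h hP hg hs, seq_bk h hP hg hs⟩, hn.ord, hn.fn,
    fun G hG => two_one h hPM hP hg hs hG⟩

end Pool.Agent.H17.CF
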