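import Pool.Agent.H17.CF.C.Seq
import Pool.Agent.H17.CF.B.Tr

/-!
# CF-C10: the two steps as one step: the poset

`PS M Ω B P S`: the set of the pairs `(u, p)`, `u ∈ P`, `p ∈ Sn Ω u α` where `α` is the length of `u` (`S` is any set of `M` with
`Sn ⊆ S`, e.g. `finS (Ent Ω lam)`).
`ps_mem`: separation (`Df.Vld`, `PD.Sn`). `rs_mem`: separation (`Df.LE`). `ps_pre`: `LE.refl`, `LE.trans`.
-/

set_option autoImplicit false
set_option linter.unusedVariables false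
set_option linter.unusedSectionVars false
set_option linter.unusedSimpArgs false
set_option linter.unusedTactic false
set_option linter.unreachableTactic false

open Pool.Agent.H17.Omega Pool.Agent.H17.Omega.CTM Pool.Agent.H52.GC Pool.Agent.H7.IG

namespace Pool.Agent.H17.CF

/-- The set of the pairs `(u, p)`, `p` a condition for `u`. -/
noncomputable def PS (M : Set ZFSet.{0}) (Ω : Ordinal.{0}) (B P S : ZFSet.{0}) : ZFSet.{0} :=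
  ZFSet.sep (fun z => ∃ u p, z = ZFSet.pair u p ∧ ∃ α : Ordinal.{0}, Vld M Ω B u α.toZFSet ∧ p ∈ Sn Ω u α.toZFSet)
    (ZFSet.prod P S)

/-- The order on `PS`. -/
noncomputable def RS (Ω : Ordinal.{0}) (Q : ZFSet.{0}) : ZFSet.{0} :=
  ZFSet.sep (fun z => ∃ u p v q, z = ZFSet.pair (ZFSet.pair u p) (ZFSet.pair v q) ∧ v ⊆ u ∧ LE Ω ∅ p q)
    (ZFSet.prod Q Q)

variable {M : Set ZFSet.{0}} {κ Ω lam : Ordinal.{0}}

theorem mem_PS {B P S u p : ZFSet.{0}} : ZFSet.pair u p ∈ PS M Ω B P S ↔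
    u ∈ P ∧ p ∈ S ∧ ∃ α : Ordinal.{0}, Vld M Ω B u α.toZFSet ∧ p ∈ Sn Ω u α.toZFSet := by
  rw [PS, ZFSet.mem_sep, ZFSet.pair_mem_prod]
  constructor
  · rintro ⟨⟨h1, h2⟩, u', p', h3, h4⟩
    obtain ⟨rfl, rfl⟩ := ZFSet.pair_inj.1 h3
    exact ⟨h1, h2, h4⟩
  · rintro ⟨h1, h2, h3⟩
    exact ⟨⟨h1, h2⟩, u, p, rfl, h3⟩

theorem mem_RS {Q u p v q : ZFSet.{0}} : ZFSet.pair (ZFSet.pair u p) (ZFSet.pair v q) ∈ RS Ω Q ↔
    ZFSet.pair u p ∈ Q ∧ ZFSet.pair v q ∈ Q ∧ v ⊆ u ∧ LE Ω ∅ p q := by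
  rw [RS, ZFSet.mem_sep, ZFSet.pair_mem_prod]
  constructor
  · rintro ⟨⟨h1, h2⟩, u', p', v', q', h3, h4⟩
    obtain ⟨h5, h6⟩ := ZFSet.pair_inj.1 h3
    obtain ⟨rfl, rfl⟩ := ZFSet.pair_inj.1 h5
    obtain ⟨rfl, rfl⟩ := ZFSet.pair_inj.1 h6
    exact ⟨h1, h2, h4⟩
  · rintro ⟨h1, h2, h3⟩
    exact ⟨⟨h1, h2⟩, u, p, v, q, rfl, h3⟩

theorem ps_mem (h : Cv M κ Ω lam) {P : ZFSet.{0}} (hPM : P ∈ M) (hP : P1R M Ω (Bs κ) lam P) :
    PS M Ω (Bs κ) P (finS (Ent Ω lam.toZFSet)) ∈ M := by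
  have hΩ := h.hΩ.mem
  have hB := (om_cvr h.hM h.hκN h.hκω).1
  have hS : PD h.hM (n := 0) (fun _ => finS (Ent Ω lam.toZFSet)) := PD.finS (PD.Ent hΩ (PD.const h.hlamN))
  have key : PD h.hM (n := 0) (fun _ => ZFSet.sep (fun z => ∃ u p, z = ZFSet.pair u p ∧
      ∃ a ∈ lam.toZFSet, Vld M Ω (Bs κ) u a ∧ p ∈ Sn Ω u a) (ZFSet.prod P (finS (Ent Ω lam.toZFSet)))) := by
    refine PD.sep (P := fun _ z => ∃ u p, z = ZFSet.pair u p ∧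
      ∃ a ∈ lam.toZFSet, Vld M Ω (Bs κ) u a ∧ p ∈ Sn Ω u a) (PD.prod (PD.const hPM) hS) ?_
    refine Df.exPr (x := fun v => (v (Fin.last 0)).1)
      (P := fun _ u p => ∃ a ∈ lam.toZFSet, Vld M Ω (Bs κ) u a ∧ p ∈ Sn Ω u a) (PD.var _) ?_
    refine Df.bex (P := fun v a => Vld M Ω (Bs κ) (v (Fin.last 1).castSucc).1 a ∧
      (v (Fin.last 2)).1 ∈ Sn Ω (v (Fin.last 1).castSucc).1 a) (PD.const h.hlamN) ?_
    exact Dfn.and (Df.Vld hΩ hB (PD.var _) (PD.var _)) (Df.mem (PD.var _) (PD.Sn hΩ (PD.var _) (PD.var _)))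
  have e : PS M Ω (Bs κ) P (finS (Ent Ω lam.toZFSet)) = ZFSet.sep (fun z => ∃ u p, z = ZFSet.pair u p ∧
      ∃ a ∈ lam.toZFSet, Vld M Ω (Bs κ) u a ∧ p ∈ Sn Ω u a) (ZFSet.prod P (finS (Ent Ω lam.toZFSet))) := by
    ext z
    rw [PS, ZFSet.mem_sep, ZFSet.mem_sep]
    refine and_congr_right fun hz => ?_
    constructor
    · rintro ⟨u, p, rfl, α, h1, h2⟩
      obtain ⟨-, β, hβ, h3⟩ := (hP u).1 (ZFSet.pair_mem_prod.1 hz).1
      obtain rfl := vld_len h1 h3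
      exact ⟨u, p, rfl, _, Ordinal.toZFSet_mem_toZFSet_iff.2 hβ, h1, h2⟩
    · rintro ⟨u, p, rfl, a, ha, h1, h2⟩
      obtain ⟨α, hα, rfl⟩ := Ordinal.mem_toZFSet_iff.1 ha
      exact ⟨u, p, rfl, α, h1, h2⟩
  rw [e]
  exact key.1 Fin.elim0

theorem rs_mem (hM : CTM M) (hΩ : Ω.toZFSet ∈ M) {Q : ZFSet.{0}} (hQ : Q ∈ M) : RS Ω Q ∈ M := by
  have key : PD hM (n := 0) (fun _ => RS Ω Q) := by
    refine PD.sep (P := fun _ z => ∃ u p v q, z = ZFSet.pair (ZFSet.pair u p) (ZFSet.pair v q) ∧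
      v ⊆ u ∧ LE Ω ∅ p q) (PD.prod (PD.const hQ) (PD.const hQ)) ?_
    refine (Df.exPr (x := fun v => (v (Fin.last 0)).1)
      (P := fun _ x y => ∃ u p, x = ZFSet.pair u p ∧ ∃ v q, y = ZFSet.pair v q ∧ v ⊆ u ∧ LE Ω ∅ p q)
      (PD.var _) ?_).congr fun v => ?_
    · refine Df.exPr (x := fun v => (v (Fin.last 1).castSucc).1)
        (P := fun v u p => ∃ v' q, (v (Fin.last 2)).1 = ZFSet.pair v' q ∧ v' ⊆ u ∧ LE Ω ∅ p q)
        (PD.var _) ?_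
      refine Df.exPr (x := fun v => (v (Fin.last 2).castSucc.castSucc).1)
        (P := fun v v' q => v' ⊆ (v (Fin.last 3).castSucc).1 ∧ LE Ω ∅ (v (Fin.last 4)).1 q)
        (PD.var _) ?_
      exact Dfn.and (Df.sub (PD.var _) (PD.var _))
        (Df.LE hΩ (PD.const hM.empty_mem) (PD.var _) (PD.var _))
    · constructor
      · rintro ⟨x, y, h1, u, p, rfl, v', q, rfl, h2⟩
        exact ⟨u, p, v', q, h1, h2⟩
      · rintro ⟨u, p, v', q, h1, h2⟩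
        exact ⟨_, _, h1, u, p, rfl, v', q, rfl, h2⟩
  exact key.1 Fin.elim0

theorem ps_pre {B P S : ZFSet.{0}} : Pre (PS M Ω B P S) (RS Ω (PS M Ω B P S)) := by
  refine ⟨?_, ?_, ?_⟩
  · intro z hz
    exact ZFSet.mem_prod.1 (ZFSet.mem_sep.1 hz).1
  · intro a ha
    obtain ⟨u, p, rfl, -⟩ := (ZFSet.mem_sep.1 ha).2
    exact mem_RS.2 ⟨ha, ha, fun _ h => h, LE.refl _ _ _⟩
  · intro a b d hab hbd
    obtain ⟨u, p, v, q, h1, -⟩ := (ZFSet.mem_sep.1 hab).2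
    obtain ⟨rfl, rfl⟩ := ZFSet.pair_inj.1 h1
    obtain ⟨v', q', w, r, h2, -⟩ := (ZFSet.mem_sep.1 hbd).2
    obtain ⟨-, rfl⟩ := ZFSet.pair_inj.1 h2
    obtain ⟨h3, h4, h5, h6⟩ := mem_RS.1 hab
    obtain ⟨h7, h8, h9, h10⟩ := mem_RS.1 hbd
    exact mem_RS.2 ⟨h3, h8, fun z hz => h5 (h9 hz), h6.trans h10⟩

/-- Conditions for `u` are conditions for the longer `v`. -/
theorem Sn_long (hω : Ordinal.omega0 ≤ Ω) {B u v : ZFSet.{0}} {α β : Ordinal.{0}} (hu : Vld M Ω B u α.toZFSet)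
    (hv : Vld M Ω B v β.toZFSet) (huv : u ⊆ v) : Sn Ω u α.toZFSet ⊆ Sn Ω v β.toZFSet := by
  obtain ⟨h1, h2⟩ := vld_sub hu hv huv
  have h3 : Sn Ω v α.toZFSet = Sn Ω (sres v α.toZFSet) α.toZFSet :=
    Sn.ag hω (ZFSet.isOrdinal_toZFSet α) (ag_sres _) (vld_mok hv _)
  rw [← h2] at h3
  rw [← h3]
  exact Sn_mono hω (Ordinal.toZFSet_subset_toZFSet_iff.2 h1)

end Pool.Agent.H17.CF
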