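import Pool.Agent.H17.CF.C.Loc
import Pool.Agent.H17.CF.C.Bas
import Pool.Agent.H17.CF.B.Dy
import Pool.Agent.H17.CF.B.Lim

/-!
# CF-C3: the set of the valid sequences of length `< lam`

`exists_P1`: a valid sequence of length `α < lam` in `M` is a subset of `lam × I`, where `I` is the set of the instructions
`ins X x m τ` with `X ∈ M`, `X ⊆ finS B × finS (Ent Ω lam)`, `x = ∅` or `x ∈ TR lam`, `m = ∅` or `m ∈ lam × finS B`, `τ ∈ M`,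
`τ = ∅` or `τ ⊆ (Nd × Nd) × finS (Ent Ω lam)` (`Ent`, `TR` are monotone; `Sn ⊆ finS (Ent ..)`), and `I ∈ M`: it is contained in a product of
products of power sets of `M` (`hM.exists_pow`). So `P` is obtained by separation (`Df.Vld` of B/Dy.lean; `PD.const`, `PD.var`) from the power set in `M` of
`lam × I`.
`exR_mem`, `exR_pre`, `mem_exR`: clear.
`P1_ext`: by `vld_iff` the sequence `u ∪ {(μ, ins ∅ ∅ ∅ ∅) : α ≤ μ < β}` is valid (`VI.congr`; the trivial instruction is always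
valid), and it is an element of `M` (separation).
`P1_union`: let `L` be the set of the lengths of the elements of `F` (in `M`, by separation from `lam`, `Df.Vld`); it is covered by `κ`
(`Cvr` via `F`: `cvr_of_dfn` and `Cvr.trans` in H7/IG/Tk4), so bounded in `lam` (`bdd_of_cvr`); let `β = sup (succ ..)`/ the least
ordinal `≥` all lengths. Then `⋃ F` is valid of length `β`: by `vld_iff`; for `μ < β` there is `u ∈ F` of length `> μ`, and `u` and `⋃ F`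
agree below the length of `u` (`F` is a chain, `vld_sub`).
-/

set_option autoImplicit false
set_option linter.unusedVariables false
set_option linter.unusedSectionVars false
set_option linter.unusedSimpArgs false
set_option linter.unusedTactic false
set_option linter.unreachableTactic false

open Pool.Agent.H17.Omega Pool.Agent.H17.Omega.CTM Pool.Agent.H52.GC Pool.Agent.H7.IG

namespace Pool.Agent.H17.CF

theorem mem_exR {P u v : ZFSet.{0}} : ZFSet.pair u v ∈ exR P ↔ u ∈ P ∧ v ∈ P ∧ v ⊆ u := by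
  rw [exR, ZFSet.mem_sep, ZFSet.pair_mem_prod]
  constructor
  · rintro ⟨⟨h1, h2⟩, u', v', h3, h4⟩
    rw [ZFSet.pair_inj] at h3
    obtain ⟨rfl, rfl⟩ := h3
    exact ⟨h1, h2, h4⟩
  · rintro ⟨h1, h2, h3⟩
    exact ⟨⟨h1, h2⟩, u, v, rfl, h3⟩

theorem exR_mem {M : Set ZFSet.{0}} (hM : CTM M) {P : ZFSet.{0}} (hP : P ∈ M) : exR P ∈ M := by
  unfold exR
  refine hM.sep_mem (p := fun z => ∃ u v, z = ZFSet.pair u v ∧ v ⊆ u) ?_ (hM.prod_mem hP hP)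
  refine Df.exM ?_ (Df.exM ?_ ?_)
  · rintro v x ⟨y, h, _⟩
    exact (hM.of_pair_mem (h ▸ (v 0).2)).1
  · rintro v x ⟨h, _⟩
    exact (hM.of_pair_mem (h ▸ (v (Fin.castSucc 0)).2)).2
  · exact Dfn.and (Df.eq (PD.var _) (PD.pair (PD.var _) (PD.var _))) (Df.sub (PD.var _) (PD.var _))

theorem exR_pre {P : ZFSet.{0}} : Pre P (exR P) := by
  refine ⟨fun z hz => ?_, fun a ha => mem_exR.2 ⟨ha, ha, fun x hx => hx⟩, fun a b d h1 h2 => ?_⟩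
  · obtain ⟨a, ha, b, hb, h⟩ := ZFSet.mem_prod.1 (ZFSet.mem_sep.1 hz).1
    exact ⟨a, ha, b, hb, h⟩
  · obtain ⟨ha, _, h3⟩ := mem_exR.1 h1
    obtain ⟨_, hd, h4⟩ := mem_exR.1 h2
    exact mem_exR.2 ⟨ha, hd, fun x hx => h3 (h4 hx)⟩

variable {M : Set ZFSet.{0}} {κ Ω lam : Ordinal.{0}}

theorem Cv.hω (h : Cv M κ Ω lam) : Ordinal.omega0 ≤ Ω := by
  rw [Ordinal.omega0_le]
  exact fun n => (h.hΩ.omega_lt h.hM n).le

theorem P1_finS_mono {A B : ZFSet.{0}} (h : A ⊆ B) : finS A ⊆ finS B := by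
  intro z hz
  rw [mem_finS] at hz ⊢
  exact ⟨fun x hx => h (hz.1 hx), hz.2⟩

theorem P1_Ent_mono {α β : ZFSet.{0}} (h : α ⊆ β) : Ent Ω α ⊆ Ent Ω β := by
  intro e he
  rw [mem_Ent] at he ⊢
  obtain ⟨μ, hμ, h1⟩ := he
  exact ⟨μ, h hμ, h1⟩

/-- The parts of a valid instruction belong to fixed sets. -/
theorem P1_bound {M : Set ZFSet.{0}} {B L s α X x m τ D1 D4 : ZFSet.{0}} (hsub : α ⊆ L)
    (hD1 : ∀ X, X ∈ M → X ⊆ ZFSet.prod (finS B) (finS (Ent Ω L)) → X ∈ D1)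
    (hD4 : ∀ X, X ∈ M → X ⊆ ZFSet.prod (ZFSet.prod (Nd Ω omZ) (Nd Ω omZ)) (finS (Ent Ω L)) → X ∈ D4)
    (hX : X ∈ M) (hτ : τ ∈ M) (h : VI M Ω B s α X x m τ) :
    ins X x m τ ∈ ZFSet.prod (ZFSet.prod D1 (TR L ∪ {∅})) (ZFSet.prod (ZFSet.prod L (finS B) ∪ {∅}) D4) := by
  obtain ⟨h1, h2, h3, h4⟩ := h
  have hE : finS (Ent Ω α) ⊆ finS (Ent Ω L) := P1_finS_mono (P1_Ent_mono hsub)
  rw [ins, ZFSet.pair_mem_prod, ZFSet.pair_mem_prod, ZFSet.pair_mem_prod]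
  refine ⟨⟨?_, ?_⟩, ?_, ?_⟩
  · refine hD1 X hX fun z hz => ?_
    obtain ⟨a, ha, b, hb, rfl⟩ := ZFSet.mem_prod.1 (h1 hz)
    exact ZFSet.pair_mem_prod.2 ⟨ha, hE hb⟩
  · rw [ZFSet.mem_union, ZFSet.mem_singleton]
    rcases h2 with h2 | h2
    · exact Or.inr h2
    · left
      obtain ⟨a, ha, b, hb, rfl⟩ := ZFSet.mem_prod.1 h2
      exact ZFSet.pair_mem_prod.2 ⟨hsub ha, hb⟩
  · rw [ZFSet.mem_union, ZFSet.mem_singleton]
    rcases h3 with h3 | ⟨θ, hθ, F, hF, _, rfl⟩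
    · exact Or.inr h3
    · exact Or.inl (ZFSet.pair_mem_prod.2 ⟨hsub hθ, hF⟩)
  · refine hD4 τ hτ fun z hz => ?_
    rcases h4 with rfl | ⟨h4, _⟩
    · exact absurd hz (ZFSet.notMem_empty z)
    · obtain ⟨a, ha, b, hb, rfl⟩ := ZFSet.mem_prod.1 (h4 hz)
      exact ZFSet.pair_mem_prod.2 ⟨ha, hE (ZFSet.mem_sep.1 hb).1⟩

theorem exists_P1 (h : Cv M κ Ω lam) : ∃ P ∈ M, P1R M Ω (Bs κ) lam P := by
  have hM := h.hM
  have hB : Bs κ ∈ M := (om_cvr hM h.hκN h.hκω).1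
  have hfB : finS (Bs κ) ∈ M := (PD.finS (hN := hM) (n := 0) (PD.const hB)).1 Fin.elim0
  have hfE : finS (Ent Ω lam.toZFSet) ∈ M :=
    (PD.finS (hN := hM) (n := 0) (PD.Ent h.hΩ.mem (PD.const h.hlamN))).1 Fin.elim0
  have hTR : TR lam.toZFSet ∈ M := (PD.TR (hN := hM) (n := 0) (PD.const h.hlamN)).1 Fin.elim0
  have hNd : Nd Ω omZ ∈ M := (PD.Nd (hN := hM) (n := 0) h.hΩ.mem PD.omZ).1 Fin.elim0
  obtain ⟨D1, hD1, hD1'⟩ := hM.exists_pow (hM.prod_mem hfB hfE)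
  obtain ⟨D4, hD4, hD4'⟩ := hM.exists_pow (hM.prod_mem (hM.prod_mem hNd hNd) hfE)
  have hse : ({∅} : ZFSet.{0}) ∈ M := hM.singleton_mem hM.empty_mem
  have hI := hM.prod_mem (hM.prod_mem hD1 (hM.union_mem hTR hse))
    (hM.prod_mem (hM.union_mem (hM.prod_mem h.hlamN hfB) hse) hD4)
  obtain ⟨PP, hPP, hPP'⟩ := hM.exists_pow (hM.prod_mem h.hlamN hI)
  refine ⟨ZFSet.sep (fun u => ∃ α ∈ lam.toZFSet, Vld M Ω (Bs κ) u α) PP, ?_, ?_⟩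
  · exact hM.sep_mem (p := fun u => ∃ α ∈ lam.toZFSet, Vld M Ω (Bs κ) u α)
      (Df.bex (PD.const h.hlamN) (Df.Vld h.hΩ.mem hB (PD.var _) (PD.var _))) hPP
  · intro u
    rw [ZFSet.mem_sep, hPP']
    constructor
    · rintro ⟨⟨huM, _⟩, a, ha, h1⟩
      obtain ⟨α, hα, rfl⟩ := Ordinal.mem_toZFSet_iff.1 ha
      exact ⟨huM, α, hα, h1⟩
    · rintro ⟨huM, α, hα, h1⟩
      refine ⟨⟨huM, fun z hz => ?_⟩, α.toZFSet, Ordinal.toZFSet_mem_toZFSet_iff.2 hα, h1⟩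
      obtain ⟨μ, hμ, X, x, m, τ, rfl⟩ := h1.sub z hz
      have hαl : α.toZFSet ⊆ lam.toZFSet := Ordinal.toZFSet_subset_toZFSet_iff.2 hα.le
      have hμl := hαl hμ
      obtain ⟨_, hX, _, _, hτ⟩ := Dy_ins hM huM hz
      refine ZFSet.pair_mem_prod.2 ⟨hμl, ?_⟩
      refine P1_bound (M := M) ((ZFSet.isOrdinal_toZFSet lam).isTransitive.subset_of_mem hμl)
        (fun X h2 h3 => (hD1' X).2 ⟨h2, h3⟩) (fun X h2 h3 => (hD4' X).2 ⟨h2, h3⟩) hX hτ (vld_VI h1 hz)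

theorem P1_empty (h : Cv M κ Ω lam) {P : ZFSet.{0}} (hP : P1R M Ω (Bs κ) lam P) : (∅ : ZFSet.{0}) ∈ P := by
  refine (hP ∅).2 ⟨h.hM.empty_mem, 0, lt_of_le_of_lt (zero_le (a := κ)) h.hlamκ, vld_iff.2 ⟨?_, ?_⟩⟩
  · intro z hz
    exact absurd hz (ZFSet.notMem_empty z)
  · intro μ hμ
    exact absurd hμ (not_lt.2 (zero_le (a := μ)))

theorem P1_ext (h : Cv M κ Ω lam) {P : ZFSet.{0}} (hP : P1R M Ω (Bs κ) lam P) {u : ZFSet.{0}} {α β : Ordinal.{0}}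
    (hu : u ∈ M) (hv : Vld M Ω (Bs κ) u α.toZFSet) (hαβ : α ≤ β) (hβ : β < lam) :
    ∃ v ∈ P, u ⊆ v ∧ Vld M Ω (Bs κ) v β.toZFSet := by
  have hM := h.hM
  have hβM : β.toZFSet ∈ M := hM.toZFSet_mem_of_le hβ.le h.hlamN
  have hαM : α.toZFSet ∈ M := hM.toZFSet_mem_of_le (hαβ.trans hβ.le) h.hlamN
  have hiM : ins ∅ ∅ ∅ ∅ ∈ M := hM.pair_mem (hM.pair_mem hM.empty_mem hM.empty_mem)
    (hM.pair_mem hM.empty_mem hM.empty_mem)
  have hDM : β.toZFSet \ α.toZFSet ∈ M :=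
    (PD.sdiff (hN := hM) (n := 0) (PD.const hβM) (PD.const hαM)).1 Fin.elim0
  obtain ⟨v, hvd⟩ : ∃ v, v = u ∪ ZFSet.prod (β.toZFSet \ α.toZFSet) {ins ∅ ∅ ∅ ∅} := ⟨_, rfl⟩
  have hvM : v ∈ M := by
    rw [hvd]
    exact hM.union_mem hu (hM.prod_mem hDM (hM.singleton_mem hiM))
  have hvm : ∀ μ i, ZFSet.pair μ i ∈ v ↔ ZFSet.pair μ i ∈ u ∨ ((μ ∈ β.toZFSet ∧ μ ∉ α.toZFSet) ∧ i = ins ∅ ∅ ∅ ∅) := by
    intro μ i
    rw [hvd, ZFSet.mem_union, ZFSet.pair_mem_prod, ZFSet.mem_sdiff, ZFSet.mem_singleton]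
  have hud : ∀ μ i, ZFSet.pair μ i ∈ u → μ ∈ α.toZFSet := by
    intro μ i hi
    obtain ⟨μ', hμ', X, x, m, τ, h1⟩ := hv.sub _ hi
    rw [ZFSet.pair_inj] at h1
    rw [h1.1]
    exact hμ'
  have huv : u ⊆ v := by
    rw [hvd]
    exact fun z hz => ZFSet.mem_union.2 (Or.inl hz)
  have hvld : Vld M Ω (Bs κ) v β.toZFSet := by
    rw [vld_iff]
    obtain ⟨hv1, hv2⟩ := vld_iff.1 hv
    constructor
    · intro z hz
      rw [hvd, ZFSet.mem_union] at hz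
      rcases hz with hz | hz
      · obtain ⟨μ, hμ, h1⟩ := hv1 z hz
        exact ⟨μ, Ordinal.toZFSet_subset_toZFSet_iff.2 hαβ hμ, h1⟩
      · obtain ⟨μ, hμ, i, hi, rfl⟩ := ZFSet.mem_prod.1 hz
        rw [ZFSet.mem_sdiff] at hμ
        rw [ZFSet.mem_singleton] at hi
        exact ⟨μ, hμ.1, ∅, ∅, ∅, ∅, by rw [hi]⟩
    · intro μ hμ
      by_cases hμα : μ < α
      · obtain ⟨X, x, m, τ, h1, h2, h3⟩ := hv2 μ hμα
        refine ⟨X, x, m, τ, huv h1, ?_, ?_⟩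
        · intro i hi
          rcases (hvm _ _).1 hi with h4 | ⟨⟨_, h4⟩, _⟩
          · exact h2 i h4
          · exact absurd (Ordinal.toZFSet_mem_toZFSet_iff.2 hμα) h4
        · refine VI.congr h.hω (ZFSet.isOrdinal_toZFSet μ) ?_ (vld_mok hv _) h3
          intro ν hν i
          rw [hvm]
          refine ⟨Or.inl, fun h4 => h4.elim id fun h5 => ?_⟩
          exact absurd (Ordinal.toZFSet_subset_toZFSet_iff.2 hμα.le hν) h5.1.2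
      · have hμ' : μ.toZFSet ∉ α.toZFSet := fun h1 => hμα (Ordinal.toZFSet_mem_toZFSet_iff.1 h1)
        refine ⟨∅, ∅, ∅, ∅, (hvm _ _).2 (Or.inr ⟨⟨Ordinal.toZFSet_mem_toZFSet_iff.2 hμ, hμ'⟩, rfl⟩), ?_, ?_⟩
        · intro i hi
          rcases (hvm _ _).1 hi with h4 | h4
          · exact absurd (hud _ _ h4) hμ'
          · exact h4.2
        · exact ⟨ZFSet.empty_subset _, Or.inl rfl, Or.inl rfl, Or.inl rfl⟩
  exact ⟨v, (hP v).2 ⟨hvM, β, hβ, hvld⟩, huv, hvld⟩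

theorem P1_union (h : Cv M κ Ω lam) {P : ZFSet.{0}} (hP : P1R M Ω (Bs κ) lam P) {F : ZFSet.{0}} (hF : F ∈ M)
    (hFP : F ⊆ P) (hc : ∀ u ∈ F, ∀ v ∈ F, u ⊆ v ∨ v ⊆ u) (hk : Cvr M κ.toZFSet F) : ZFSet.sUnion F ∈ P := by
  classical
  have hM := h.hM
  have hB : Bs κ ∈ M := (om_cvr hM h.hκN h.hκω).1
  -- the set of the lengths
  have hLd : hM.Dfn (fun v : Fin 1 → M => ∃ u ∈ F, Vld M Ω (Bs κ) u (v 0).1) :=
    Df.bex (P := fun (v : Fin 1 → M) u => Vld M Ω (Bs κ) u (v 0).1) (PD.const hF)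
      (Df.Vld h.hΩ.mem hB (PD.var _) (PD.var _))
  have hLM : ZFSet.sep (fun a => ∃ u ∈ F, Vld M Ω (Bs κ) u a) lam.toZFSet ∈ M :=
    hM.sep_mem (p := fun a => ∃ u ∈ F, Vld M Ω (Bs κ) u a) hLd h.hlamN
  obtain ⟨L, hL⟩ : ∃ L, L = ZFSet.sep (fun a => ∃ u ∈ F, Vld M Ω (Bs κ) u a) lam.toZFSet := ⟨_, rfl⟩
  rw [← hL] at hLM
  have hLc : Cvr M κ.toZFSet L := by
    refine Cvr.trans hM h.hκN hF hLM hk ?_
    refine cvr_of_dfn hM (F := fun u a => a.1 ∈ L ∧ Vld M Ω (Bs κ) u.1 a.1)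
      (Dfn.and (Df.mem (PD.var _) (PD.const hLM)) (Df.Vld h.hΩ.mem hB (PD.var _) (PD.var _))) hF hLM ?_ ?_
    · rintro u hu a a' ⟨ha, h1⟩ ⟨ha', h2⟩
      rw [hL, ZFSet.mem_sep] at ha ha'
      obtain ⟨α, hα, h3⟩ := Ordinal.mem_toZFSet_iff.1 ha.1
      obtain ⟨α', hα', h3'⟩ := Ordinal.mem_toZFSet_iff.1 ha'.1
      rw [← h3] at h1
      rw [← h3'] at h2
      exact Subtype.ext (by rw [← h3, ← h3', vld_len h1 h2])
    · intro a ha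
      have ha2 := ha
      rw [hL, ZFSet.mem_sep] at ha2
      obtain ⟨_, u, hu, h1⟩ := ha2
      exact ⟨⟨u, hM.mem_of_mem hF hu⟩, hu, ha, h1⟩
  obtain ⟨γ, hγ, hγL⟩ := bdd_of_cvr hM h.hκN h.hκω h.hlamN h.hlam h.hcov hLM hLc (by
    rw [hL]
    exact fun z hz => (ZFSet.mem_sep.1 hz).1)
  -- the supremum of the lengths
  have hub : ∀ u ∈ F, ∀ α : Ordinal.{0}, Vld M Ω (Bs κ) u α.toZFSet → α ≤ γ := by
    intro u hu α hα
    obtain ⟨_, α', hα', h1⟩ := (hP u).1 (hFP hu)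
    rw [vld_len hα h1]
    have h2 : α'.toZFSet ∈ L := by
      rw [hL, ZFSet.mem_sep]
      exact ⟨Ordinal.toZFSet_mem_toZFSet_iff.2 hα', u, hu, h1⟩
    exact (Ordinal.toZFSet_mem_toZFSet_iff.1 (hγL h2)).le
  have hne : {β : Ordinal.{0} | ∀ u ∈ F, ∀ α : Ordinal.{0}, Vld M Ω (Bs κ) u α.toZFSet → α ≤ β}.Nonempty := ⟨γ, hub⟩
  obtain ⟨β, hβ⟩ : ∃ β, β = sInf {β : Ordinal.{0} | ∀ u ∈ F, ∀ α : Ordinal.{0}, Vld M Ω (Bs κ) u α.toZFSet → α ≤ β} :=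
    ⟨_, rfl⟩
  have hβ1 : ∀ u ∈ F, ∀ α : Ordinal.{0}, Vld M Ω (Bs κ) u α.toZFSet → α ≤ β := by
    rw [hβ]
    exact csInf_mem hne
  have hβ2 : ∀ μ < β, ∃ u ∈ F, ∃ α : Ordinal.{0}, Vld M Ω (Bs κ) u α.toZFSet ∧ μ < α := by
    intro μ hμ
    by_contra hcon
    push Not at hcon
    rw [hβ] at hμ
    exact notMem_of_lt_csInf hμ (OrderBot.bddBelow _) hcon
  have hβγ : β ≤ γ := by
    rw [hβ]
    exact csInf_le (OrderBot.bddBelow _) hub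
  have hFv : ∀ u ∈ F, ∃ α < lam, Vld M Ω (Bs κ) u α.toZFSet := fun u hu => ((hP u).1 (hFP hu)).2
  have hsub : ∀ u ∈ F, u ⊆ ZFSet.sUnion F := fun u hu z hz => ZFSet.mem_sUnion.2 ⟨u, hu, hz⟩
  -- pairs below the length of a member belong to the member
  have hbel : ∀ u ∈ F, ∀ α : Ordinal.{0}, Vld M Ω (Bs κ) u α.toZFSet → ∀ ν ∈ α.toZFSet, ∀ i,
      ZFSet.pair ν i ∈ ZFSet.sUnion F → ZFSet.pair ν i ∈ u := by
    intro u hu α hα ν hν i hi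
    obtain ⟨u', hu', hi'⟩ := ZFSet.mem_sUnion.1 hi
    rcases hc u hu u' hu' with h1 | h1
    · obtain ⟨X, x, m, τ, h2⟩ := hα.tot ν hν
      obtain ⟨α', _, hα'⟩ := hFv u' hu'
      rw [hα'.uni _ _ _ hi' (h1 h2)]
      exact h2
    · exact h1 hi'
  refine (hP _).2 ⟨hM.sUnion_mem hF, β, hβγ.trans_lt hγ, vld_iff.2 ⟨?_, ?_⟩⟩
  · intro z hz
    obtain ⟨u, hu, hzu⟩ := ZFSet.mem_sUnion.1 hz
    obtain ⟨α, _, hα⟩ := hFv u hu
    obtain ⟨μ, hμ, h1⟩ := hα.sub z hzu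
    exact ⟨μ, Ordinal.toZFSet_subset_toZFSet_iff.2 (hβ1 u hu α hα) hμ, h1⟩
  · intro μ hμ
    obtain ⟨u, hu, α, hα, hμα⟩ := hβ2 μ hμ
    obtain ⟨X, x, m, τ, h1, h2, h3⟩ := (vld_iff.1 hα).2 μ hμα
    refine ⟨X, x, m, τ, hsub u hu h1, ?_, ?_⟩
    · intro i hi
      exact h2 i (hbel u hu α hα _ (Ordinal.toZFSet_mem_toZFSet_iff.2 hμα) i hi)
    · refine VI.congr h.hω (ZFSet.isOrdinal_toZFSet μ) ?_ (vld_mok hα _) h3
      intro ν hν i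
      exact ⟨fun h4 => hsub u hu h4, fun h4 => hbel u hu α hα ν
        (Ordinal.toZFSet_subset_toZFSet_iff.2 hμα.le hν) i h4⟩

end Pool.Agent.H17.CF
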