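import Pool.Agent.H17.CF.C.Abs
import Pool.Agent.H17.CF.C.Bas
import Pool.Agent.H17.CF.B.Lim
import Pool.Agent.H17.CF.B.Phi
import Pool.Agent.H17.CF.A.E2

/-!
# CF-C6: sizes, and absoluteness of valid instructions

`cvr_Ent`: `cvr_prod2`, `cvr_fin`, `hcov`, `Ω ≤ κ` (`Cvr.mono` of the identity; `cvr_id`..), `ctb_cvr` for `natZ 5`, `omZ`; `Nd Ω omZ ⊆ Ω × ω`; a union of
two covered sets is covered by `κ` (`cvr_union`, or `Ω ∪ Nd Ω omZ`: use a covering of `2 × κ`, `cvr_prod2`).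
`cvr_Sn`: `Sn ⊆ finS (Ent Ω α)`, `cvr_fin`. `cvr_QQ`: `QQ ⊆ P × finS (Nd × ω)`. `cvr_Xs`, `cvr_τs`: the same.
(The sets must be elements of `M`: `Sn_mem`, `QQ_mem`, `finS_mem`, `hM.prod_mem`, `E2_Nd_mem`, `E2_Lv_mem`, `Ent_mem` below.)
`VI_down`: `X ∈ M`, `τ ∈ M` by `NK.sbs` with `cvr_Xs`, `cvr_τs`; `CC` by `NK.cc` with `cvr_QQ` (`QQ_mem`, `RQ_mem`, `OO_mem`, `Ln_mem`; `c ∈ M` by `dd_mem`).
`VI_up`: the same. The other parts of `VI` do not depend on the model.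
-/

set_option autoImplicit false
set_option linter.unusedVariables false
set_option linter.unusedSectionVars false
set_option linter.unusedSimpArgs false
set_option linter.unusedTactic false
set_option linter.unreachableTactic false

open Pool.Agent.H17.Omega Pool.Agent.H17.Omega.CTM Pool.Agent.H52.GC Pool.Agent.H7.IG

namespace Pool.Agent.H17.CF

variable {M M₁ : Set ZFSet.{0}} {κ Ω lam : Ordinal.{0}}

theorem siz_natZ_sub (n : ℕ) : (natZ n : ZFSet.{0}) ⊆ omZ := by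
  intro z hz
  obtain ⟨m, _, rfl⟩ := mem_natZ.1 hz
  exact natZ_mem_omZ m

theorem siz_sub {α β : Ordinal.{0}} (h : α ≤ β) : α.toZFSet ⊆ β.toZFSet := by
  intro z hz
  obtain ⟨γ, hγ, rfl⟩ := Ordinal.mem_toZFSet_iff.1 hz
  exact Ordinal.toZFSet_mem_toZFSet_iff.2 (hγ.trans_le h)

theorem siz_om (h : Cv M κ Ω lam) : Cvr M κ.toZFSet omZ :=
  cvr_of_subset h.hM h.hκN (card_omZ_sub h.hM h.hκN h.hκω)

theorem siz_union (h : Cv M κ Ω lam) {X Y : ZFSet.{0}} (hX : X ∈ M) (hY : Y ∈ M) (cX : Cvr M κ.toZFSet X)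
    (cY : Cvr M κ.toZFSet Y) : Cvr M κ.toZFSet (X ∪ Y) := by
  have hM := h.hM
  have h0 : (natZ 0 : ZFSet.{0}) ∈ M := hM.natZ_mem_N 0
  have h1 : (natZ 1 : ZFSet.{0}) ∈ M := hM.natZ_mem_N 1
  have h01 : (natZ 0 : ZFSet.{0}) ≠ natZ 1 := fun e => absurd (natZ_inj.1 e) (by norm_num)
  have hI : (natZ 2 : ZFSet.{0}) ∈ M := hM.natZ_mem_N 2
  have hr : (ZFSet.prod {natZ 0} X ∪ ZFSet.prod {natZ 1} Y : ZFSet.{0}) ∈ M :=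
    hM.union_mem (hM.prod_mem (hM.singleton_mem h0) hX) (hM.prod_mem (hM.singleton_mem h1) hY)
  have hmem : ∀ i x : ZFSet.{0}, ZFSet.pair i x ∈ (ZFSet.prod {natZ 0} X ∪ ZFSet.prod {natZ 1} Y : ZFSet.{0}) ↔
      (i = natZ 0 ∧ x ∈ X) ∨ (i = natZ 1 ∧ x ∈ Y) := by
    intro i x
    rw [ZFSet.mem_union, ZFSet.pair_mem_prod, ZFSet.pair_mem_prod, ZFSet.mem_singleton, ZFSet.mem_singleton]
  refine cvr_union hM h.hκN h.hκω hI hr (hM.union_mem hX hY) ((siz_om h).mono (siz_natZ_sub 2)) ?_ ?_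
  · intro i hi
    obtain ⟨m, hm, rfl⟩ := mem_natZ.1 hi
    have hm' : m = 0 ∨ m = 1 := by omega
    rcases hm' with rfl | rfl
    · refine ⟨X, hX, cX, fun x _ hx => ?_⟩
      rcases (hmem _ _).1 hx with h2 | h2
      · exact h2.2
      · exact absurd h2.1 h01
    · refine ⟨Y, hY, cY, fun x _ hx => ?_⟩
      rcases (hmem _ _).1 hx with h2 | h2
      · exact absurd h2.1.symm h01
      · exact h2.2
  · intro x hx
    rcases ZFSet.mem_union.1 hx with h2 | h2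
    · exact ⟨natZ 0, mem_natZ.2 ⟨0, by norm_num, rfl⟩, (hmem _ _).2 (Or.inl ⟨rfl, h2⟩)⟩
    · exact ⟨natZ 1, mem_natZ.2 ⟨1, by norm_num, rfl⟩, (hmem _ _).2 (Or.inr ⟨rfl, h2⟩)⟩

theorem Ent_mem (hM : CTM M) (hΩ : Ω.toZFSet ∈ M) {α : ZFSet.{0}} (hα : α ∈ M) : Ent Ω α ∈ M :=
  hM.prod_mem (hM.prod_mem hα (hM.natZ_mem_N 5)) (hM.prod_mem
    (hM.union_mem hΩ (E2_Nd_mem hM hΩ hM.omZ_mem)) (finS_mem hM hΩ))

theorem siz_Om (h : Cv M κ Ω lam) : Cvr M κ.toZFSet Ω.toZFSet := cvr_of_subset h.hM h.hκN (siz_sub h.hΩκ)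

theorem siz_Nd (h : Cv M κ Ω lam) : Cvr M κ.toZFSet (Nd Ω omZ) :=
  cvr_prod2 h.hM h.hκN h.hκω (E2_Lv_mem h.hM h.hΩ.mem) h.hM.omZ_mem
    ((siz_Om h).mono fun _ hz => (ZFSet.mem_sep.1 hz).1) (siz_om h)

theorem siz_finS (h : Cv M κ Ω lam) {X : ZFSet.{0}} (hX : X ∈ M) (hc : Cvr M κ.toZFSet X) :
    Cvr M κ.toZFSet (finS X) :=
  cvr_fin h.hM h.hκN h.hκω hX (finS_mem h.hM hX) hc fun _ hy => mem_finS.1 hy

theorem siz_mem (h : Cv M κ Ω lam) {α : Ordinal.{0}} (hα : α < lam) : α.toZFSet ∈ M :=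
  h.hM.toZFSet_mem_of_le hα.le h.hlamN

theorem cvr_Ent (h : Cv M κ Ω lam) {α : Ordinal.{0}} (hα : α < lam) : Cvr M κ.toZFSet (Ent Ω α.toZFSet) := by
  have hM := h.hM
  have hΩ := h.hΩ.mem
  have hN := E2_Nd_mem hM hΩ hM.omZ_mem
  have h5 : (natZ 5 : ZFSet.{0}) ∈ M := hM.natZ_mem_N 5
  have hαM := siz_mem h hα
  have hU := hM.union_mem hΩ hN
  have hf := finS_mem hM hΩ
  exact cvr_prod2 hM h.hκN h.hκω (hM.prod_mem hαM h5) (hM.prod_mem hU hf)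
    (cvr_prod2 hM h.hκN h.hκω hαM h5 (h.hcov α hα) ((siz_om h).mono (siz_natZ_sub 5)))
    (cvr_prod2 hM h.hκN h.hκω hU hf (siz_union h hΩ hN (siz_Om h) (siz_Nd h)) (siz_finS h hΩ (siz_Om h)))

theorem cvr_Sn (h : Cv M κ Ω lam) {s : ZFSet.{0}} (hs : s ∈ M) {α : Ordinal.{0}} (hα : α < lam) :
    Cvr M κ.toZFSet (Sn Ω s α.toZFSet) :=
  (siz_finS h (Ent_mem h.hM h.hΩ.mem (siz_mem h hα)) (cvr_Ent h hα)).mono fun _ hz => (ZFSet.mem_sep.1 hz).1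

theorem cvr_QQ (h : Cv M κ Ω lam) {P O : ZFSet.{0}} (hP : P ∈ M) (hO : O ∈ M) (hc : Cvr M κ.toZFSet P) :
    Cvr M κ.toZFSet (QQ Ω omZ P O) := by
  have hM := h.hM
  have hN := E2_Nd_mem hM h.hΩ.mem hM.omZ_mem
  have hX := hM.prod_mem hN hM.omZ_mem
  refine (cvr_prod2 hM h.hκN h.hκω hP (finS_mem hM hX) hc (siz_finS h hX
    (cvr_prod2 hM h.hκN h.hκω hN hM.omZ_mem (siz_Nd h) (siz_om h)))).mono ?_
  exact fun _ hz => (ZFSet.mem_sep.1 hz).1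

theorem cvr_Xs (h : Cv M κ Ω lam) {α : Ordinal.{0}} (hα : α < lam) :
    Cvr M κ.toZFSet (ZFSet.prod (finS (Bs κ)) (finS (Ent Ω α.toZFSet))) := by
  have hM := h.hM
  obtain ⟨hB, cB⟩ := om_cvr hM h.hκN h.hκω
  have hE := Ent_mem hM h.hΩ.mem (siz_mem h hα)
  exact cvr_prod2 hM h.hκN h.hκω (finS_mem hM hB) (finS_mem hM hE) (siz_finS h hB cB)
    (siz_finS h hE (cvr_Ent h hα))

theorem cvr_τs (h : Cv M κ Ω lam) {s : ZFSet.{0}} (hs : s ∈ M) {α : Ordinal.{0}} (hα : α < lam) :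
    Cvr M κ.toZFSet (ZFSet.prod (ZFSet.prod (Nd Ω omZ) (Nd Ω omZ)) (Sn Ω s α.toZFSet)) := by
  have hM := h.hM
  have hN := E2_Nd_mem hM h.hΩ.mem hM.omZ_mem
  exact cvr_prod2 hM h.hκN h.hκω (hM.prod_mem hN hN) (Sn_mem hM h.hΩ.mem hs (siz_mem h hα))
    (cvr_prod2 hM h.hκN h.hκω hN hN (siz_Nd h) (siz_Nd h)) (cvr_Sn h hs hα)

theorem siz_CC (h : Cv M κ Ω lam) (hn : NK M M₁ κ) {s : ZFSet.{0}} (hs : s ∈ M) {α : Ordinal.{0}} (hα : α < lam)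
    {τ c : ZFSet.{0}} (hτ : τ ∈ M) (hc : DD s α.toZFSet c) :
    CC M (QQ Ω omZ (Sn Ω s α.toZFSet) (OO Ω omZ s α.toZFSet τ))
      (RQ Ω omZ (Sn Ω s α.toZFSet) (Ln Ω s α.toZFSet c) (OO Ω omZ s α.toZFSet τ)) ↔
    CC M₁ (QQ Ω omZ (Sn Ω s α.toZFSet) (OO Ω omZ s α.toZFSet τ))
      (RQ Ω omZ (Sn Ω s α.toZFSet) (Ln Ω s α.toZFSet c) (OO Ω omZ s α.toZFSet τ)) := by
  have hM := h.hM
  have hΩ := h.hΩ.mem
  have hαM := siz_mem h hα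
  have hS := Sn_mem hM hΩ hs hαM
  have hO := OO_mem hM hΩ hM.omZ_mem hs hαM hτ
  have hL := Ln_mem hM hΩ hs hαM (dd_mem hM hαM hc)
  exact hn.cc (QQ_mem hM hΩ hM.omZ_mem hS hO) (RQ_mem hM hΩ hM.omZ_mem hS hL hO)
    (cvr_QQ h hS hO (cvr_Sn h hs hα))

theorem siz_Xmem (h : Cv M κ Ω lam) (hn : NK M M₁ κ) {α : Ordinal.{0}} (hα : α < lam) {X : ZFSet.{0}}
    (hX : X ∈ M₁) (hs : X ⊆ ZFSet.prod (finS (Bs κ)) (finS (Ent Ω α.toZFSet))) : X ∈ M := by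
  have hM := h.hM
  obtain ⟨hB, cB⟩ := om_cvr hM h.hκN h.hκω
  have hE := Ent_mem hM h.hΩ.mem (siz_mem h hα)
  exact hn.sbs (hM.prod_mem (finS_mem hM hB) (finS_mem hM hE)) (cvr_Xs h hα) hX hs

theorem siz_tmem (h : Cv M κ Ω lam) (hn : NK M M₁ κ) {s : ZFSet.{0}} (hs : s ∈ M) {α : Ordinal.{0}} (hα : α < lam)
    {τ : ZFSet.{0}} (hτ : τ ∈ M₁)
    (hst : τ ⊆ ZFSet.prod (ZFSet.prod (Nd Ω omZ) (Nd Ω omZ)) (Sn Ω s α.toZFSet)) : τ ∈ M := by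
  have hM := h.hM
  have hN := E2_Nd_mem hM h.hΩ.mem hM.omZ_mem
  exact hn.sbs (hM.prod_mem (hM.prod_mem hN hN) (Sn_mem hM h.hΩ.mem hs (siz_mem h hα))) (cvr_τs h hs hα) hτ hst

theorem VI_down (h : Cv M κ Ω lam) (hn : NK M M₁ κ) {s : ZFSet.{0}} (hs : s ∈ M) {α : Ordinal.{0}} (hα : α < lam)
    {X x m τ : ZFSet.{0}} (hX : X ∈ M₁) (hτ : τ ∈ M₁) (hv : VI M₁ Ω (Bs κ) s α.toZFSet X x m τ) :
    X ∈ M ∧ τ ∈ M ∧ VI M Ω (Bs κ) s α.toZFSet X x m τ := by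
  obtain ⟨h1, h2, h3, h4⟩ := hv
  refine ⟨siz_Xmem h hn hα hX h1, ?_, h1, h2, h3, ?_⟩
  · rcases h4 with rfl | ⟨h5, _, _⟩
    · exact h.hM.empty_mem
    · exact siz_tmem h hn hs hα hτ h5
  · rcases h4 with h5 | ⟨h5, h6, h7⟩
    · exact Or.inl h5
    · exact Or.inr ⟨h5, h6, fun c hc => (siz_CC h hn hs hα (siz_tmem h hn hs hα hτ h5) hc).2 (h7 c hc)⟩

theorem VI_up (h : Cv M κ Ω lam) (hn : NK M M₁ κ) {s : ZFSet.{0}} (hs : s ∈ M) {α : Ordinal.{0}} (hα : α < lam)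
    {X x m τ : ZFSet.{0}} (hX : X ∈ M) (hτ : τ ∈ M) (hv : VI M Ω (Bs κ) s α.toZFSet X x m τ) :
    VI M₁ Ω (Bs κ) s α.toZFSet X x m τ := by
  obtain ⟨h1, h2, h3, h4⟩ := hv
  refine ⟨h1, h2, h3, ?_⟩
  rcases h4 with h5 | ⟨h5, h6, h7⟩
  · exact Or.inl h5
  · exact Or.inr ⟨h5, h6, fun c hc => (siz_CC h hn hs hα hτ hc).1 (h7 c hc)⟩

end Pool.Agent.H17.CF
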