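import Pool.Agent.H17.CF.C.P1
import Pool.Agent.H17.CF.C.Siz
import Pool.Agent.H17.CF.C.Clo

/-!
# CF-C8: the generic sequence

`P1_clo`: let `F` be a nonempty chain of size `≤ κ`; `⋃ F ∈ P` by `P1_union`, and it contains all elements of `F`.
`gen_nk`: `clo_fn`, `Fr.sub`, `Fr.ctm`, `Fr.ord`.
`seq_gen`: `s = ⋃ g`: there is `γ ∈ M[g]` with the same elements as `g` (`Fr.mem_g`), so `s = sUnion γ`. For `α < lam` the set
of the `u ∈ P` of length `≥ α` is dense (`P1_ext`; definable: `Df.Vld`, or in `M` by separation) so some `u ∈ g` has length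
`β ≥ α`; `s` and `u` agree below `β` (two elements of `g` have a common extension in `g`, `vld_sub`), so `sres s α = sres u α`
is valid of length `α` (`vld_res`), in `M` (it is `sres u α`, separation), in `P`, and in `g` (`Fr.gen.up`, `mem_exR`: it is a subset of `u`).
For `u ∈ g` of length `α < lam`: `u = sres s α`: `⊆` as all stages of `u` are below `α`; an element of `s` of stage `< α` is in some `u' ∈ g`; take a
common extension in `g` and `vld_sub`.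
`seq_vld`: `vld_lim` for `M₁ = M[g]` and `β = lam` (`lam` is a limit: for `α < lam` also `succ α < lam`, otherwise `lam` would be covered
by `κ`; see `cvr_succ` in D/Card.lean): `sres s (succ α)` is valid in `M`; it is valid in `M₁`: `vld_iff` and `VI_up` (the instructions are
elements of the element `sres s (succ α)` of `M`).
-/

set_option autoImplicit false
set_option linter.unusedVariables false
set_option linter.unusedSectionVars false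
set_option linter.unusedSimpArgs false
set_option linter.unusedTactic false
set_option linter.unreachableTactic false

open Pool.Agent.H17.Omega Pool.Agent.H17.Omega.CTM Pool.Agent.H52.GC Pool.Agent.H7.IG

namespace Pool.Agent.H17.CF

variable {M : Set ZFSet.{0}} {κ Ω lam : Ordinal.{0}}

theorem Cv.lim (h : Cv M κ Ω lam) : ∀ α < lam, Order.succ α < lam := by
  intro α hα
  by_contra hcon
  have h3 : lam ≤ Order.succ α := not_lt.1 hcon
  have hN := h.hM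
  have hαN : α.toZFSet ∈ M := hN.toZFSet_mem_of_le hα.le h.hlamN
  apply h.hlam
  refine card_insert hN h.hκN h.hκω (cvr_prod hN h.hκN h.hκω) hαN h.hlamN hαN (h.hcov α hα) ?_
  intro z hz
  obtain ⟨β, hβ, rfl⟩ := Ordinal.mem_toZFSet_iff.1 hz
  rcases (Order.lt_succ_iff.1 (hβ.trans_le h3)).eq_or_lt with h4 | h4
  · exact Or.inl (by rw [h4])
  · exact Or.inr (Ordinal.toZFSet_mem_toZFSet_iff.2 h4)

theorem P1_clo (h : Cv M κ Ω lam) {P : ZFSet.{0}} (hP : P1R M Ω (Bs κ) lam P) : Clo M P (exR P) κ := by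
  intro F hF hFP _ hc hk
  have hU : ZFSet.sUnion F ∈ P := by
    refine P1_union h hP hF hFP ?_ hk
    intro u hu v hv
    rcases hc u hu v hv with h1 | h1
    · exact Or.inr (mem_exR.1 h1).2.2
    · exact Or.inl (mem_exR.1 h1).2.2
  refine ⟨ZFSet.sUnion F, hU, fun u hu => mem_exR.2 ⟨hU, hFP hu, fun z hz => ?_⟩⟩
  exact ZFSet.mem_sUnion.2 ⟨u, hu, hz⟩

theorem gen_nk (h : Cv M κ Ω lam) {P : ZFSet.{0}} (hP : P1R M Ω (Bs κ) lam P) {g : Set ZFSet.{0}}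
    (hg : Fr M P (exR P) g) : NK M (ExtZ M g) κ :=
  ⟨h.hM, hg.ctm, hg.sub, h.hκN, h.hκω,
    fun f hf A hA hfn => clo_fn hg (P1_clo h hP) h.hκN hf hA hfn, fun o => hg.ord⟩

/-- `s` is the generic sequence. -/
structure GS (M : Set ZFSet.{0}) (κ Ω lam : Ordinal.{0}) (g : Set ZFSet.{0}) (s : ZFSet.{0}) : Prop where
  mem : s ∈ ExtZ M g
  iff : ∀ z, z ∈ s ↔ ∃ u ∈ g, z ∈ u
  res : ∀ α < lam, sres s α.toZFSet ∈ g ∧ sres s α.toZFSet ∈ M ∧ Vld M Ω (Bs κ) (sres s α.toZFSet) α.toZFSet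
  of_g : ∀ u ∈ g, ∃ α < lam, u = sres s α.toZFSet

theorem seq_sres_mem (hM : CTM M) {u α : ZFSet.{0}} (hu : u ∈ M) (hα : α ∈ M) : sres u α ∈ M := by
  unfold sres
  refine hM.sep_mem ?_ hu
  refine Df.bex (PD.const hα) (Df.exM ?_ (Df.eq (PD.var _) (PD.pair (PD.var _) (PD.var _))))
  intro v x hx
  have h0 : (v 0).1 ∈ M := (v 0).2
  have hx' : (v 0).1 = ZFSet.pair (v (Fin.last 1)).1 x := hx
  rw [hx'] at h0
  exact (hM.of_pair_mem h0).2

theorem seq_dense (h : Cv M κ Ω lam) {P : ZFSet.{0}} (hP : P1R M Ω (Bs κ) lam P) {g : Set ZFSet.{0}}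
    (hg : Fr M P (exR P) g) {α : Ordinal.{0}} (hα : α < lam) :
    ∃ u ∈ g, ∃ β, α ≤ β ∧ β < lam ∧ Vld M Ω (Bs κ) u β.toZFSet := by
  have hM := h.hM
  have hB : Bs κ ∈ M := (om_cvr hM h.hκN h.hκω).1
  have hαM : α.toZFSet ∈ M := hM.toZFSet_mem_of_le hα.le h.hlamN
  have hD : ZFSet.sep (fun u => ∃ b ∈ lam.toZFSet, α.toZFSet ⊆ b ∧ Vld M Ω (Bs κ) u b) P ∈ M := by
    refine hM.sep_mem ?_ hg.hP
    exact Df.bex (PD.const h.hlamN) (Dfn.and (Df.sub (PD.const hαM) (PD.var _))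
      (Df.Vld h.hΩ.mem hB (PD.var _) (PD.var _)))
  obtain ⟨u, hu, huD⟩ := hg.gen.gen _ hD (by
    intro u hu
    obtain ⟨huM, α', hα', hv⟩ := (hP u).1 hu
    obtain ⟨v, hvP, huv, hvv⟩ := P1_ext h hP huM hv (le_max_left α' α) (max_lt hα' hα)
    refine ⟨v, ZFSet.mem_sep.2 ⟨hvP, (max α' α).toZFSet, Ordinal.toZFSet_mem_toZFSet_iff.2 (max_lt hα' hα),
      Ordinal.toZFSet_subset_toZFSet_iff.2 (le_max_right _ _), hvv⟩, mem_exR.2 ⟨hvP, hu, huv⟩⟩)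
  obtain ⟨_, b, hb, hab, hv⟩ := ZFSet.mem_sep.1 huD
  obtain ⟨β, hβ, rfl⟩ := Ordinal.mem_toZFSet_iff.1 hb
  exact ⟨u, hu, β, Ordinal.toZFSet_subset_toZFSet_iff.1 hab, hβ, hv⟩

theorem seq_gen (h : Cv M κ Ω lam) {P : ZFSet.{0}} (hP : P1R M Ω (Bs κ) lam P) {g : Set ZFSet.{0}}
    (hg : Fr M P (exR P) g) : ∃ s, GS M κ Ω lam g s := by
  have hM := h.hM
  obtain ⟨γ, hγ, hγ'⟩ := hg.mem_g
  have hiff : ∀ z, z ∈ ZFSet.sUnion γ ↔ ∃ u ∈ g, z ∈ u := by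
    intro z
    rw [ZFSet.mem_sUnion]
    constructor
    · rintro ⟨u, hu, hz⟩
      exact ⟨u, (hγ' u).1 hu, hz⟩
    · rintro ⟨u, hu, hz⟩
      exact ⟨u, (hγ' u).2 hu, hz⟩
  have hdir : ∀ u ∈ g, ∀ v ∈ g, ∃ w ∈ g, u ⊆ w ∧ v ⊆ w := by
    intro u hu v hv
    obtain ⟨w, hw, h1, h2⟩ := hg.gen.dir u hu v hv
    exact ⟨w, hw, (mem_exR.1 h1).2.2, (mem_exR.1 h2).2.2⟩
  have hvl : ∀ u ∈ g, u ∈ M ∧ ∃ α < lam, Vld M Ω (Bs κ) u α.toZFSet :=
    fun u hu => (hP u).1 (hg.gen.sub u hu)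
  have hres : ∀ u ∈ g, ∀ α : Ordinal.{0}, Vld M Ω (Bs κ) u α.toZFSet →
      u = sres (ZFSet.sUnion γ) α.toZFSet := by
    intro u hu α hv
    ext z
    constructor
    · intro hz
      obtain ⟨μ, hμ, X, x, m, τ, rfl⟩ := hv.sub z hz
      exact mem_sres.2 ⟨(hiff _).2 ⟨u, hu, hz⟩, hμ⟩
    · intro hz
      obtain ⟨hz1, μ, hμ, i, rfl⟩ := ZFSet.mem_sep.1 hz
      obtain ⟨u', hu', hz'⟩ := (hiff _).1 hz1
      obtain ⟨w, hw, huw, huw'⟩ := hdir u hu u' hu'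
      obtain ⟨_, β, _, hvw⟩ := hvl w hw
      obtain ⟨_, he⟩ := vld_sub hv hvw huw
      rw [he]
      exact mem_sres.2 ⟨huw' hz', hμ⟩
  refine ⟨ZFSet.sUnion γ, hg.ctm.sUnion_mem hγ, hiff, ?_, ?_⟩
  · intro α hα
    obtain ⟨u, hu, β, hαβ, hβ, hv⟩ := seq_dense h hP hg hα
    have he := hres u hu β hv
    have hsub : α.toZFSet ⊆ β.toZFSet := Ordinal.toZFSet_subset_toZFSet_iff.2 hαβ
    have he2 : sres (ZFSet.sUnion γ) α.toZFSet = sres u α.toZFSet := by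
      rw [he, sres_sres hsub]
    have hαM : α.toZFSet ∈ M := hM.toZFSet_mem_of_le hα.le h.hlamN
    have huM := (hvl u hu).1
    have hmem : sres u α.toZFSet ∈ M := seq_sres_mem hM huM hαM
    have hvr : Vld M Ω (Bs κ) (sres u α.toZFSet) α.toZFSet := vld_res h.hω hαβ hv
    rw [he2]
    refine ⟨?_, hmem, hvr⟩
    exact hg.gen.up u hu _ (mem_exR.2 ⟨hg.gen.sub u hu, (hP _).2 ⟨hmem, α, hα, hvr⟩, sres_sub⟩)
  · intro u hu
    obtain ⟨_, α, hα, hv⟩ := hvl u hu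
    exact ⟨α, hα, hres u hu α hv⟩

theorem vld_up {M₁ : Set ZFSet.{0}} (h : Cv M κ Ω lam) (hn : NK M M₁ κ) {u : ZFSet.{0}} (hu : u ∈ M)
    {α : Ordinal.{0}} (hα : α < lam) (hv : Vld M Ω (Bs κ) u α.toZFSet) : Vld M₁ Ω (Bs κ) u α.toZFSet := by
  obtain ⟨h1, h2⟩ := vld_iff.1 hv
  refine vld_iff.2 ⟨h1, fun μ hμ => ?_⟩
  obtain ⟨X, x, m, τ, h3, h4, h5⟩ := h2 μ hμ
  obtain ⟨_, hX, _, _, hτ⟩ := Dy_ins h.hM hu h3
  exact ⟨X, x, m, τ, h3, h4, VI_up h hn hu (hμ.trans hα) hX hτ h5⟩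

theorem seq_vld (h : Cv M κ Ω lam) {P : ZFSet.{0}} (hP : P1R M Ω (Bs κ) lam P) {g : Set ZFSet.{0}}
    (hg : Fr M P (exR P) g) {s : ZFSet.{0}} (hs : GS M κ Ω lam g s) : Vld (ExtZ M g) Ω (Bs κ) s lam.toZFSet := by
  have hn := gen_nk h hP hg
  refine vld_lim h.hω ?_ ?_
  · intro α hα
    have hsl := h.lim α hα
    obtain ⟨_, h2, h3⟩ := hs.res _ hsl
    exact vld_up h hn h2 hsl h3
  · intro z hz
    obtain ⟨u, hu, hzu⟩ := (hs.iff z).1 hz
    obtain ⟨β, hβ, rfl⟩ := hs.of_g u hu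
    obtain ⟨hz1, μ, hμ, i, rfl⟩ := ZFSet.mem_sep.1 hzu
    refine ⟨β, hβ, mem_sres.2 ⟨hz, ?_⟩⟩
    exact Ordinal.toZFSet_subset_toZFSet_iff.2 (Order.le_succ β) hμ

end Pool.Agent.H17.CF
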