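import Pool.Agent.H17.CF.C.One

/-!
# CF-C11: the two steps as one step: the generic filter

`M₁ = M[g]`, `s` the generic sequence, `G` generic over `M₁` for `(Sn Ω s lam, ≤_∅)`.
`sn_seq`: `p ∈ Sn Ω s lam` iff `p ∈ Sn Ω u α` for some `u = sres s α`, `α < lam` (the finitely many stages of `p` are bounded by some `α < lam`: `mem_Sn`;
`rst_eq`, `rst_mem_Sn`; `Sn.ag` with `ag_sres`).
`GG g G = {(u, p) : u ∈ g, p ∈ G, (u, p) ∈ PS}`.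
`gg_gen`: filter: `ne`: `(u, p)`, `p ∈ G`, `u = sres s α` by `sn_seq`. `up`: if `(u, p) ≤ (v, q)`, `(u, p) ∈ GG`: `v ∈ g`, and `q ∈ G` since
`q ∈ Sn Ω v _ ⊆ Sn Ω s lam` and `p ≤_∅ q`. `dir`: `(u, p), (v, q)`: take `r ∈ G` below `p, q`, and `w ∈ g` with `u, v ⊆ w` and `r ∈ Sn Ω w _` (`sn_seq`, the elements of
`g` are comparable; `Sn_long`). `gen`: let `D ∈ M` be dense in `PS`. In `M₁` the set `D₁ = {p : ∃ u ∈ g, (u, p) ∈ D}`; every `p ∈ Sn Ω s lam` has an element of `D₁`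
below it: by `sn_seq` `p ∈ Sn Ω u₀ _` with `u₀ ∈ g`; the set of the `v ∈ P` such that there is `p' ≤_∅ p` with `(v, p') ∈ D` is dense below `u₀` in `P`: given `v ⊇ u₀`, `(v, p) ∈ PS` (`Sn_long`), so
there is `(v', p') ≤ (v, p)` in `D`. So `Fr.gen_dfn` for `g` gives `v ∈ g` and `p'`; `p' ∈ Sn Ω v _ ⊆ Sn Ω s lam`. So `G` meets `D₁`, `(u, p) ∈ D`, `u ∈ g`, `p ∈ G`.
-/

set_option autoImplicit false
set_option linter.unusedVariables false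
set_option linter.unusedSectionVars false
set_option linter.unusedSimpArgs false
set_option linter.unusedTactic false
set_option linter.unreachableTactic false

open Pool.Agent.H17.Omega Pool.Agent.H17.Omega.CTM Pool.Agent.H52.GC Pool.Agent.H7.IG

namespace Pool.Agent.H17.CF

variable {M : Set ZFSet.{0}} {κ Ω lam : Ordinal.{0}}

theorem two_bound (h : Cv M κ Ω lam) {p : ZFSet.{0}} (hp : FinZ p)
    (hs : ∀ μ r y z, ent (row μ r) y z ∈ p → μ ∈ lam.toZFSet) :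
    ∃ α < lam, ∀ μ r y z, ent (row μ r) y z ∈ p → μ ∈ α.toZFSet := by
  classical
  obtain ⟨t, ht⟩ := hp
  let b : ZFSet.{0} → Ordinal.{0} := fun e =>
    if h : ∃ μ r w, e = ZFSet.pair (ZFSet.pair μ r) w ∧ μ ∈ lam.toZFSet then Order.succ h.choose.rank else 0
  have h0 : 0 < lam := lt_of_le_of_lt zero_le h.hlamκ
  have hb : ∀ e, b e < lam := by
    intro e
    by_cases he : ∃ μ r w, e = ZFSet.pair (ZFSet.pair μ r) w ∧ μ ∈ lam.toZFSet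
    · have h1 : b e = Order.succ he.choose.rank := dif_pos he
      obtain ⟨r, w, h2, h3⟩ := he.choose_spec
      obtain ⟨ξ, hξ, h4⟩ := Ordinal.mem_toZFSet_iff.1 h3
      rw [h1, ← h4, Ordinal.rank_toZFSet]
      exact h.lim ξ hξ
    · have h1 : b e = 0 := dif_neg he
      rw [h1]
      exact h0
  refine ⟨t.sup b, ?_, ?_⟩
  · rw [Finset.sup_lt_iff (by simpa using h0)]
    exact fun e _ => hb e
  · intro μ r y z he
    have hμ := hs μ r y z he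
    have he' : ∃ μ' r' w, ent (row μ r) y z = ZFSet.pair (ZFSet.pair μ' r') w ∧ μ' ∈ lam.toZFSet :=
      ⟨μ, natZ r, _, rfl, hμ⟩
    have h1 : b (ent (row μ r) y z) = Order.succ he'.choose.rank := dif_pos he'
    obtain ⟨r', w, h2, h3⟩ := he'.choose_spec
    have h4 : μ = he'.choose := (ZFSet.pair_inj.1 (ZFSet.pair_inj.1 h2).1).1
    obtain ⟨ξ, hξ, rfl⟩ := Ordinal.mem_toZFSet_iff.1 hμ
    rw [Ordinal.toZFSet_mem_toZFSet_iff]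
    have h5 : b (ent (row ξ.toZFSet r) y z) ≤ t.sup b := Finset.le_sup ((ht _).1 he)
    rw [h1, ← h4, Ordinal.rank_toZFSet] at h5
    exact lt_of_lt_of_le (Order.lt_succ ξ) h5

theorem two_ord_sub {α β : Ordinal.{0}} (h : α ≤ β) : (α.toZFSet : ZFSet.{0}) ⊆ β.toZFSet := by
  intro x hx
  obtain ⟨ξ, hξ, rfl⟩ := Ordinal.mem_toZFSet_iff.1 hx
  exact Ordinal.toZFSet_mem_toZFSet_iff.2 (hξ.trans_le h)

theorem two_Sn (h : Cv M κ Ω lam) {P : ZFSet.{0}} (hP : P1R M Ω (Bs κ) lam P) {g : Set ZFSet.{0}}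
    (hg : Fr M P (exR P) g) {s : ZFSet.{0}} (hs : GS M κ Ω lam g s) (α : Ordinal.{0}) :
    Sn Ω (sres s α.toZFSet) α.toZFSet = Sn Ω s α.toZFSet :=
  (Sn.ag h.hω (ZFSet.isOrdinal_toZFSet α) (ag_sres _) (vld_mok (seq_vld h hP hg hs) _)).symm

theorem two_sres {s : ZFSet.{0}} {α β : Ordinal.{0}} (h : α ≤ β) : sres s α.toZFSet ⊆ sres s β.toZFSet := by
  intro z hz
  obtain ⟨h1, μ, hμ, i, rfl⟩ := ZFSet.mem_sep.1 hz
  exact ZFSet.mem_sep.2 ⟨h1, μ, two_ord_sub h hμ, i, rfl⟩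

theorem sn_seq (h : Cv M κ Ω lam) {P : ZFSet.{0}} (hP : P1R M Ω (Bs κ) lam P) {g : Set ZFSet.{0}}
    (hg : Fr M P (exR P) g) {s : ZFSet.{0}} (hs : GS M κ Ω lam g s) {p : ZFSet.{0}} :
    p ∈ Sn Ω s lam.toZFSet ↔ ∃ α < lam, p ∈ Sn Ω (sres s α.toZFSet) α.toZFSet := by
  constructor
  · intro hp
    obtain ⟨h1, h2, h3⟩ := (mem_Sn h.hω).1 hp
    obtain ⟨α, hα, h4⟩ := two_bound h h2 h3
    refine ⟨α, hα, ?_⟩
    rw [two_Sn h hP hg hs]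
    exact (mem_Sn h.hω).2 ⟨h1, h2, h4⟩
  · rintro ⟨α, hα, hp⟩
    rw [two_Sn h hP hg hs] at hp
    exact Sn_mono h.hω (two_ord_sub hα.le) hp

/-- The filter of the two step iteration. -/
def GG (M : Set ZFSet.{0}) (Ω : Ordinal.{0}) (B P S : ZFSet.{0}) (g G : Set ZFSet.{0}) : Set ZFSet.{0} :=
  {z | z ∈ PS M Ω B P S ∧ ∃ u ∈ g, ∃ p ∈ G, z = ZFSet.pair u p}

theorem two_F3 (h : Cv M κ Ω lam) {P : ZFSet.{0}} (hP : P1R M Ω (Bs κ) lam P) {g : Set ZFSet.{0}}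
    (hg : Fr M P (exR P) g) {s : ZFSet.{0}} (hs : GS M κ Ω lam g s) {S u p : ZFSet.{0}} (hu : u ∈ g)
    (hup : ZFSet.pair u p ∈ PS M Ω (Bs κ) P S) :
    ∃ α < lam, u = sres s α.toZFSet ∧ p ∈ Sn Ω s α.toZFSet ∧ p ∈ Sn Ω s lam.toZFSet := by
  obtain ⟨α, hα, rfl⟩ := hs.of_g u hu
  obtain ⟨_, _, α', hv, hp⟩ := mem_PS.1 hup
  have e := vld_len hv (hs.res α hα).2.2
  subst e
  rw [two_Sn h hP hg hs] at hp
  exact ⟨α', hα, rfl, hp, Sn_mono h.hω (two_ord_sub hα.le) hp⟩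

theorem two_F4 (h : Cv M κ Ω lam) {P : ZFSet.{0}} (hP : P1R M Ω (Bs κ) lam P) {g : Set ZFSet.{0}}
    (hg : Fr M P (exR P) g) {s : ZFSet.{0}} (hs : GS M κ Ω lam g s) {α : Ordinal.{0}} (hα : α < lam) {p : ZFSet.{0}}
    (hp : p ∈ Sn Ω s α.toZFSet) :
    ZFSet.pair (sres s α.toZFSet) p ∈ PS M Ω (Bs κ) P (finS (Ent Ω lam.toZFSet)) := by
  obtain ⟨h1, h2, h3⟩ := hs.res α hα
  refine mem_PS.2 ⟨(hP _).2 ⟨h2, α, hα, h3⟩, ?_, α, h3, ?_⟩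
  · exact (ZFSet.mem_sep.1 (Sn_mono h.hω (two_ord_sub hα.le) hp)).1
  · rwa [two_Sn h hP hg hs]

theorem gg_gen (h : Cv M κ Ω lam) {P : ZFSet.{0}} (hPM : P ∈ M) (hP : P1R M Ω (Bs κ) lam P) {g : Set ZFSet.{0}}
    (hg : Fr M P (exR P) g) {s : ZFSet.{0}} (hs : GS M κ Ω lam g s) {G : Set ZFSet.{0}}
    (hG : Fr (ExtZ M g) (Sn Ω s lam.toZFSet) (Ln Ω s lam.toZFSet ∅) G) :
    Fr M (PS M Ω (Bs κ) P (finS (Ent Ω lam.toZFSet))) (RS Ω (PS M Ω (Bs κ) P (finS (Ent Ω lam.toZFSet))))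
      (GG M Ω (Bs κ) P (finS (Ent Ω lam.toZFSet)) g G) := by
  have hM := h.hM
  have hQ := ps_mem h hPM hP
  have hR := rs_mem hM h.hΩ.mem hQ
  have hpo := ps_pre (M := M) (Ω := Ω) (B := Bs κ) (P := P) (S := finS (Ent Ω lam.toZFSet))
  have hpair : ∀ z ∈ PS M Ω (Bs κ) P (finS (Ent Ω lam.toZFSet)), ∃ u p, z = ZFSet.pair u p := by
    intro z hz
    obtain ⟨_, u, p, h1, _⟩ := ZFSet.mem_sep.1 hz
    exact ⟨u, p, h1⟩
  refine ⟨hM, hQ, hR, hpo, ⟨fun z hz => hz.1, ?_, ?_, ?_, ?_⟩⟩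
  · obtain ⟨p, hp⟩ := hG.gen.ne
    obtain ⟨α, hα, h1⟩ := (sn_seq h hP hg hs).1 (hG.gen.sub p hp)
    rw [two_Sn h hP hg hs] at h1
    exact ⟨_, two_F4 h hP hg hs hα h1, _, (hs.res α hα).1, p, hp, rfl⟩
  · rintro z ⟨hz, u, hu, p, hp, rfl⟩ z' hzz
    have hz' := (hpo.mem hzz).2
    obtain ⟨v, q, rfl⟩ := hpair z' hz'
    obtain ⟨_, _, hvu, hle⟩ := mem_RS.1 hzz
    have hvP := (mem_PS.1 hz').1
    have hvg : v ∈ g := hg.gen.up u hu v (mem_exR.2 ⟨hg.gen.sub u hu, hvP, hvu⟩)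
    obtain ⟨α, hα, _, _, hq⟩ := two_F3 h hP hg hs hvg hz'
    refine ⟨hz', v, hvg, q, hG.gen.up p hp q (mem_Ln.2 ⟨hG.gen.sub p hp, hq, hle⟩), rfl⟩
  · rintro z ⟨hz, u, hu, p, hp, rfl⟩ z' ⟨hz', v, hv, q, hq, rfl⟩
    obtain ⟨r, hr, hrp, hrq⟩ := hG.gen.dir p hp q hq
    obtain ⟨α, hα, h1⟩ := (sn_seq h hP hg hs).1 (hG.gen.sub r hr)
    rw [two_Sn h hP hg hs] at h1
    obtain ⟨β, hβ, hβu, _, _⟩ := two_F3 h hP hg hs hu hz
    obtain ⟨γ, hγ, hγv, _, _⟩ := two_F3 h hP hg hs hv hz'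
    have hmax : max α (max β γ) < lam := max_lt hα (max_lt hβ hγ)
    have h2 := two_F4 h hP hg hs hmax (Sn_mono h.hω (two_ord_sub (le_max_left α (max β γ))) h1)
    refine ⟨_, ⟨h2, _, (hs.res _ hmax).1, r, hr, rfl⟩, mem_RS.2 ⟨h2, hz, ?_, (mem_Ln.1 hrp).2.2⟩,
      mem_RS.2 ⟨h2, hz', ?_, (mem_Ln.1 hrq).2.2⟩⟩
    · rw [hβu]
      exact two_sres ((le_max_left β γ).trans (le_max_right α (max β γ)))
    · rw [hγv]
      exact two_sres ((le_max_right β γ).trans (le_max_right α (max β γ)))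
  · intro D hD hdense
    have hM₁ := hG.hM
    obtain ⟨γ, hγ, hγ'⟩ := hg.mem_g
    have hDM := hg.sub hD
    have hQM := hg.sub hQ
    obtain ⟨D₁, hD₁, hD₁'⟩ := hM₁.exists_sep (P := fun p => ∃ u z : ExtZ M g, u.1 ∈ (⟨γ, hγ⟩ : ExtZ M g).1 ∧
        z.1 = ZFSet.pair u.1 p.1 ∧ z.1 ∈ (⟨D, hDM⟩ : ExtZ M g).1 ∧
        z.1 ∈ (⟨_, hQM⟩ : ExtZ M g).1) (by
      (repeat' first
      | exact DT.var _ | exact DT.last | exact DT.const _ | assumption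
      | refine Dfn.pairMem ?_ ?_ ?_ | refine Dfn.isPair ?_ ?_ ?_ | refine Dfn.mem ?_ ?_
      | refine Dfn.and ?_ ?_ | refine Dfn.or ?_ ?_ | refine Dfn.not ?_
      | refine Dfn.ex ?_)) hG.hP
    have key : ∀ p ∈ Sn Ω s lam.toZFSet, ∃ q ∈ D₁, ZFSet.pair q p ∈ Ln Ω s lam.toZFSet ∅ := by
      intro p hp
      obtain ⟨α, hα, h1⟩ := (sn_seq h hP hg hs).1 hp
      obtain ⟨h2, h3, h4⟩ := hs.res α hα
      have hpM : p ∈ M := hM.mem_of_mem (finS_mem hM (Ent_mem hM h.hΩ.mem h.hlamN)) (ZFSet.mem_sep.1 hp).1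
      have hdf : hg.hM.Dfn (fun v : Fin 1 → M => ∃ p' : M, ∃ z : M, z.1 = ZFSet.pair (v 0).1 p'.1 ∧
          z.1 ∈ (⟨D, hD⟩ : M).1 ∧ z.1 ∈ (⟨_, hQ⟩ : M).1 ∧ LE Ω ∅ p'.1 p) := by
        refine Dfn.ex (Dfn.ex ?_)
        refine Dfn.and (Dfn.isPair DT.last (DT.var _) (DT.var _)) ?_
        refine Dfn.and (Dfn.mem DT.last (DT.const _)) ?_
        refine Dfn.and (Dfn.mem DT.last (DT.const _)) ?_
        exact Df.LE h.hΩ.mem (PD.const hM.empty_mem) (PD.var _) (PD.const hpM)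
      obtain ⟨v, hv, p', z, hz1, hz2, hz3, hz4⟩ := hg.gen_dfn (D := fun w : M => ∃ p' : M, ∃ z : M,
          z.1 = ZFSet.pair w.1 p'.1 ∧ z.1 ∈ (⟨D, hD⟩ : M).1 ∧ z.1 ∈ (⟨_, hQ⟩ : M).1 ∧ LE Ω ∅ p'.1 p) hdf h2 (by
        intro r hr
        obtain ⟨hrP, _, hur⟩ := mem_exR.1 hr
        obtain ⟨hrM, β, hβ, hrv⟩ := (hP _).1 hrP
        have h5 : ZFSet.pair r.1 p ∈ PS M Ω (Bs κ) P (finS (Ent Ω lam.toZFSet)) :=
          mem_PS.2 ⟨hrP, (ZFSet.mem_sep.1 hp).1, β, hrv, Sn_long h.hω h4 hrv hur h1⟩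
        obtain ⟨q, hq, hqr⟩ := hdense _ h5
        have hqQ := (hpo.mem hqr).1
        obtain ⟨v, p', rfl⟩ := hpair q hqQ
        obtain ⟨_, _, h6, h7⟩ := mem_RS.1 hqr
        have hvP := (mem_PS.1 hqQ).1
        have hqM := hM.mem_of_mem hD hq
        obtain ⟨h8, h9⟩ := hM.of_pair_mem hqM
        exact ⟨⟨v, h8⟩, mem_exR.2 ⟨hvP, hrP, h6⟩, ⟨p', h9⟩, ⟨_, hqM⟩, rfl, hq, hqQ, h7⟩)
      rw [hz1] at hz2 hz3
      obtain ⟨β, hβ, _, _, hp'⟩ := two_F3 h hP hg hs hv hz3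
      exact ⟨p'.1, (hD₁' _).2 ⟨hp', hM₁.mem_of_mem hG.hP hp', ⟨v.1, hg.sub v.2⟩,
        ⟨_, hg.sub (hM.mem_of_mem hD hz2)⟩, (hγ' _).2 hv, rfl, hz2, hz3⟩, mem_Ln.2 ⟨hp', hp, hz4⟩⟩
    obtain ⟨p, hp, hpD⟩ := hG.gen.gen D₁ hD₁ key
    obtain ⟨_, _, u, z, hu, hz1, hz2, hz3⟩ := (hD₁' _).1 hpD
    have hz1 : z.1 = ZFSet.pair u.1 p := hz1
    rw [hz1] at hz2 hz3
    exact ⟨_, ⟨hz3, u.1, (hγ' _).1 hu, p, hp, rfl⟩, hz2⟩

/-- `g` and `G` are definable from `GG`. -/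
theorem gg_fst (h : Cv M κ Ω lam) {P : ZFSet.{0}} (hP : P1R M Ω (Bs κ) lam P) {g : Set ZFSet.{0}}
    (hg : Fr M P (exR P) g) {s : ZFSet.{0}} (hs : GS M κ Ω lam g s) {G : Set ZFSet.{0}}
    (hG : Fr (ExtZ M g) (Sn Ω s lam.toZFSet) (Ln Ω s lam.toZFSet ∅) G) :
    (∀ u, u ∈ g ↔ ∃ p, ZFSet.pair u p ∈ GG M Ω (Bs κ) P (finS (Ent Ω lam.toZFSet)) g G) ∧
    ∀ p, p ∈ G ↔ ∃ u, ZFSet.pair u p ∈ GG M Ω (Bs κ) P (finS (Ent Ω lam.toZFSet)) g G := by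
  constructor
  · intro u
    constructor
    · intro hu
      obtain ⟨p, hp⟩ := hG.gen.ne
      have h0 : (∅ : ZFSet.{0}) ∈ G := hG.gen.up p hp ∅ (mem_Ln.2 ⟨hG.gen.sub p hp, empty_mem_Sn _,
        LE.of_sub (ZFSet.empty_subset _)⟩)
      obtain ⟨α, hα, h1⟩ := hs.of_g u hu
      refine ⟨∅, ?_, u, hu, ∅, h0, rfl⟩
      have h2 := two_F4 h hP hg hs hα (empty_mem_Sn (Ω := Ω) (s := s) α.toZFSet)
      rwa [← h1] at h2
    · rintro ⟨p, _, u', hu', p', _, h1⟩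
      rw [(ZFSet.pair_inj.1 h1).1]
      exact hu'
  · intro p
    constructor
    · intro hp
      obtain ⟨α, hα, h1⟩ := (sn_seq h hP hg hs).1 (hG.gen.sub p hp)
      rw [two_Sn h hP hg hs] at h1
      exact ⟨_, two_F4 h hP hg hs hα h1, _, (hs.res α hα).1, p, hp, rfl⟩
    · rintro ⟨u, _, u', _, p', hp', h1⟩
      rw [(ZFSet.pair_inj.1 h1).2]
      exact hp'

end Pool.Agent.H17.CF
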